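import Pool.Agent.W524.LV.L1
import Pool.Agent.W524.DY.Fin

/-! The sharp one-sided bounds. -/

set_option autoImplicit false

namespace Pool.Agent.W524.LV

open MeasureTheory Filter Topology Set Classical
open Pool.Agent.W263.BSD hiding sc ff sc_meas ff_meas GG hh mm aa
open Pool.Agent.W263.EP
open Pool.Agent.H341R2 (NormSys)
open Pool.Agent.W524.DY (integral_log_change')
open Pool.Agent.W136.FR (Hyp)

variable {S : NormSys} {Bs : Finset S.X} {B : S.X → Polynomial ℂ} {tr : S.X → ℕ → ℝ} {ω : ℝ}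
  {D : ℝ} {F : ℂ → ℂ} {r : ℕ}

theorem ext_of_conv (E : TData S (tn S (Bs : Set S.X) tr ω) D)
    (hB : ∀ x ∈ Bs, ∀ s : ℂ, (ω + 1) / 2 ≤ s.re → (B x).eval (((S.N x : ℕ) : ℂ) ^ (-s)) ≠ 0)
    (hF : IsContB S Bs B tr ω F)
    (hconv : ∀ w > 0, LInt (aa S (tn S (Bs : Set S.X) tr ω)) w) :
    ∃ G : ℂ → ℂ, IsFullB S Bs B tr ω G ∧ ∀ s : ℝ, (ω + 1) / 2 < s → F s = G s := by
  refine ⟨_, (FC_isFull E hconv).isFullB E hB, fun s hs => ?_⟩
  have h1 : F s * BB S Bs B s = FC S (Bs : Set S.X) tr ω s := (hF.isCont E hB).eq_FC E hconv hs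
  show F s = FC S (Bs : Set S.X) tr ω s * (BB S Bs B s)⁻¹
  rw [← h1, mul_inv_cancel_right₀]
  exact BB_ne hB (by rw [Complex.ofReal_re]; linarith)

/-- the expected constant -/
noncomputable def KK (F : ℂ → ℂ) (c : ℝ) (r : ℕ) : ℝ :=
  Real.exp (r * Real.eulerMascheroniConstant) / lead F c r

/-- the logarithm of the normalised product -/
theorem log_QQ (E : TData S (tn S (Bs : Set S.X) tr ω) D) (hbc : 0 < bc S Bs B ω)
    (hΛ : 0 < lead F ((ω + 1) / 2) r) {u : ℝ} (hu : 0 < u) :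
    Real.log (QQ S Bs B tr ω (Real.exp u) / (KK F ((ω + 1) / 2) r * u ^ r)) =
      f0 S (tn S (Bs : Set S.X) tr ω) r (-Real.log (lead F ((ω + 1) / 2) r * bc S Bs B ω) +
        r * Real.eulerMascheroniConstant) u := by
  unfold QQ KK f0
  have h1 := PS_pos (S := S) (bad := (Bs : Set S.X)) (tr := tr) (ω := ω) (Real.exp u)
  have h2 : (0 : ℝ) < u ^ r := pow_pos hu r
  have h3 := Real.exp_pos (r * Real.eulerMascheroniConstant)
  rw [Real.log_div (mul_pos hbc h1).ne' (mul_pos (div_pos h3 hΛ) h2).ne',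
    Real.log_mul hbc.ne' h1.ne', Real.log_mul (div_pos h3 hΛ).ne' h2.ne',
    Real.log_div h3.ne' hΛ.ne', Real.log_exp, Real.log_mul hΛ.ne' hbc.ne', Real.log_pow,
    log_PS E hu.le]
  ring

theorem QQ_pos (hbc : 0 < bc S Bs B ω) (x : ℝ) : 0 < QQ S Bs B tr ω x :=
  mul_pos hbc (PS_pos _)

/-- from means in the variable `u` to means in the variable `x` -/
theorem mean_transfer (E : TData S (tn S (Bs : Set S.X) tr ω) D) (hbc : 0 < bc S Bs B ω)
    (hΛ : 0 < lead F ((ω + 1) / 2) r) {l : ℝ} (hl : 1 < l)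
    (h : Tendsto (fun v : ℝ => ∫ u in Ioc v (v + Real.log l),
      |f0 S (tn S (Bs : Set S.X) tr ω) r (-Real.log (lead F ((ω + 1) / 2) r * bc S Bs B ω) +
        r * Real.eulerMascheroniConstant) u|) atTop (𝓝 0)) :
    Tendsto (fun x : ℝ => ∫ t in Ioc x (l * x),
      |Real.log (QQ S Bs B tr ω t / (KK F ((ω + 1) / 2) r * Real.log t ^ r))| / t) atTop (𝓝 0) := by
  refine (h.comp Real.tendsto_log_atTop).congr' ?_
  filter_upwards [eventually_gt_atTop (1 : ℝ)] with x hx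
  have hx0 : 0 < x := by linarith
  have hl0 : 0 < l := by linarith
  rw [integral_log_change' (fun t => |Real.log (QQ S Bs B tr ω t /
    (KK F ((ω + 1) / 2) r * Real.log t ^ r))|) hx0 (mul_pos hl0 hx0)]
  simp only [Function.comp_apply]
  rw [Real.log_mul hl0.ne' hx0.ne', add_comm (Real.log l)]
  refine setIntegral_congr_fun measurableSet_Ioc fun u hu => ?_
  have hu0 : 0 < u := (Real.log_pos hx).trans hu.1
  rw [Real.log_exp, log_QQ E hbc hΛ hu0]

/-- **The sharp upper bound gives convergence in the mean.** -/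
theorem sharp_up (E : TData S (tn S (Bs : Set S.X) tr ω) D)
    (hB : ∀ x ∈ Bs, ∀ s : ℂ, (ω + 1) / 2 ≤ s.re → (B x).eval (((S.N x : ℕ) : ℂ) ^ (-s)) ≠ 0)
    (hF : IsContB S Bs B tr ω F) (hAn : AnalyticAt ℂ F (((ω + 1) / 2 : ℝ) : ℂ))
    (hr : analyticOrderAt F (((ω + 1) / 2 : ℝ) : ℂ) = r)
    (h : ∀ ε : ℝ, 0 < ε → ∀ᶠ x : ℝ in atTop,
      QQ S Bs B tr ω x ≤ (KK F ((ω + 1) / 2) r + ε) * Real.log x ^ r) :
    (∀ w > 0, LInt (aa S (tn S (Bs : Set S.X) tr ω)) w) ∧ ∀ l : ℝ, 1 < l →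
    Tendsto (fun x : ℝ => ∫ t in Ioc x (l * x),
      |Real.log (QQ S Bs B tr ω t / (KK F ((ω + 1) / 2) r * Real.log t ^ r))| / t) atTop (𝓝 0) := by
  obtain ⟨Φ, P, hO, hΛ, hbc, hlim, hne⟩ := centre E hB hF hAn hr
  have hK : 0 < KK F ((ω + 1) / 2) r := div_pos (Real.exp_pos _) hΛ
  have hf : ∀ ε : ℝ, 0 < ε → ∀ᶠ u : ℝ in atTop, f0 S (tn S (Bs : Set S.X) tr ω) r
      (-Real.log (lead F ((ω + 1) / 2) r * bc S Bs B ω) + r * Real.eulerMascheroniConstant) u ≤
        ε := by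
    intro ε hε
    filter_upwards [Real.tendsto_exp_atTop.eventually (h (KK F ((ω + 1) / 2) r * ε)
      (mul_pos hK hε)), eventually_gt_atTop 0] with u h1 h2
    rw [← log_QQ E hbc hΛ h2]
    rw [Real.log_exp] at h1
    have h3 : (0 : ℝ) < u ^ r := pow_pos h2 r
    have h4 : QQ S Bs B tr ω (Real.exp u) / (KK F ((ω + 1) / 2) r * u ^ r) ≤ 1 + ε := by
      rw [div_le_iff₀ (mul_pos hK h3)]
      linarith
    have h5 := Real.log_le_sub_one_of_pos (div_pos (QQ_pos (tr := tr) hbc (Real.exp u))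
      (mul_pos hK h3))
    linarith
  have hconv : ∀ w > 0, LInt (aa S (tn S (Bs : Set S.X) tr ω)) w := by
    refine E.conv_of_ff_le (r := r) P (B := 2 + (-Real.log (lead F ((ω + 1) / 2) r *
      bc S Bs B ω) + r * Real.eulerMascheroniConstant)) ?_
    have h6 : ∀ᶠ u : ℝ in atTop, -1 < (r : ℝ) * (ell u - Real.log u) := by
      have := ell_sub_log.const_mul (r : ℝ)
      rw [mul_zero] at this
      exact this.eventually (lt_mem_nhds (by norm_num))
    filter_upwards [hf 1 one_pos, h6] with u h7 h8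
    unfold f0 at h7
    unfold Pool.Agent.W263.EP.ff
    linarith
  obtain ⟨h0, ρ, H⟩ := local_hyp E P hO (mul_pos hΛ hbc) hlim hconv
  exact ⟨hconv, fun l hl => mean_transfer E hbc hΛ hl (l1_tendsto H (Real.log_pos hl) hf)⟩

/-- **The sharp lower bound gives convergence in the mean,** without real zeros. -/
theorem sharp_lo (E : TData S (tn S (Bs : Set S.X) tr ω) D)
    (hB : ∀ x ∈ Bs, ∀ s : ℂ, (ω + 1) / 2 ≤ s.re → (B x).eval (((S.N x : ℕ) : ℂ) ^ (-s)) ≠ 0)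
    (hF : IsContB S Bs B tr ω F) (hAn : AnalyticAt ℂ F (((ω + 1) / 2 : ℝ) : ℂ))
    (hr : analyticOrderAt F (((ω + 1) / 2 : ℝ) : ℂ) = r)
    (hne0 : ∀ s : ℝ, (ω + 1) / 2 < s → F s ≠ 0)
    (h : ∀ ε : ℝ, 0 < ε → ∀ᶠ x : ℝ in atTop,
      (KK F ((ω + 1) / 2) r - ε) * Real.log x ^ r ≤ QQ S Bs B tr ω x) :
    (∀ w > 0, LInt (aa S (tn S (Bs : Set S.X) tr ω)) w) ∧ ∀ l : ℝ, 1 < l →
    Tendsto (fun x : ℝ => ∫ t in Ioc x (l * x),
      |Real.log (QQ S Bs B tr ω t / (KK F ((ω + 1) / 2) r * Real.log t ^ r))| / t) atTop (𝓝 0) := by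
  obtain ⟨Φ, P, hO, hΛ, hbc, hlim, hne⟩ := centre E hB hF hAn hr
  have hK : 0 < KK F ((ω + 1) / 2) r := div_pos (Real.exp_pos _) hΛ
  have hf : ∀ ε : ℝ, 0 < ε → ∀ᶠ u : ℝ in atTop, -f0 S (tn S (Bs : Set S.X) tr ω) r
      (-Real.log (lead F ((ω + 1) / 2) r * bc S Bs B ω) + r * Real.eulerMascheroniConstant) u ≤
        ε := by
    intro ε hε
    have hη : 0 < 1 - Real.exp (-ε) := by
      have := Real.exp_lt_exp.mpr (show -ε < 0 by linarith)
      rw [Real.exp_zero] at this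
      linarith
    filter_upwards [Real.tendsto_exp_atTop.eventually (h (KK F ((ω + 1) / 2) r *
      (1 - Real.exp (-ε))) (mul_pos hK hη)), eventually_gt_atTop 0] with u h1 h2
    rw [← log_QQ E hbc hΛ h2]
    rw [Real.log_exp] at h1
    have h3 : (0 : ℝ) < u ^ r := pow_pos h2 r
    have h4 : Real.exp (-ε) ≤ QQ S Bs B tr ω (Real.exp u) / (KK F ((ω + 1) / 2) r * u ^ r) := by
      rw [le_div_iff₀ (mul_pos hK h3)]
      linarith
    have h5 := Real.log_le_log (Real.exp_pos _) h4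
    rw [Real.log_exp] at h5
    linarith
  have hconv : ∀ w > 0, LInt (aa S (tn S (Bs : Set S.X) tr ω)) w := by
    refine E.conv_of_ff_ge (r := r) P (hne hne0) (B := -2 + (-Real.log (lead F ((ω + 1) / 2) r *
      bc S Bs B ω) + r * Real.eulerMascheroniConstant)) ?_
    have h6 : ∀ᶠ u : ℝ in atTop, (r : ℝ) * (ell u - Real.log u) < 1 := by
      have := ell_sub_log.const_mul (r : ℝ)
      rw [mul_zero] at this
      exact this.eventually (gt_mem_nhds (by norm_num))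
    filter_upwards [hf 1 one_pos, h6] with u h7 h8
    unfold f0 at h7
    unfold Pool.Agent.W263.EP.ff
    linarith
  obtain ⟨h0, ρ, H⟩ := local_hyp E P hO (mul_pos hΛ hbc) hlim hconv
  have h9 : ∀ l : ℝ, 1 < l → Tendsto (fun v : ℝ => ∫ u in Ioc v (v + Real.log l),
      |f0 S (tn S (Bs : Set S.X) tr ω) r (-Real.log (lead F ((ω + 1) / 2) r * bc S Bs B ω) +
        r * Real.eulerMascheroniConstant) u|) atTop (𝓝 0) := by
    intro l hl
    have := l1_tendsto (Hyp.neg H) (Real.log_pos hl) hf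
    simpa only [abs_neg] using this
  exact ⟨hconv, fun l hl => mean_transfer E hbc hΛ hl (h9 l hl)⟩

end Pool.Agent.W524.LV
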