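import Pool.Agent.W524.LV.Fin

/-! Consequences: continuation, finite order, exponents. -/

set_option autoImplicit false

namespace Pool.Agent.W524.LV

open MeasureTheory Filter Topology Set Classical
open Pool.Agent.W263.BSD hiding sc ff sc_meas ff_meas GG hh mm aa
open Pool.Agent.W263.EP
open Pool.Agent.H341R2 (NormSys)

variable {S : NormSys} {Bs : Finset S.X} {B : S.X → Polynomial ℂ} {tr : S.X → ℕ → ℝ} {ω : ℝ}
  {D : ℝ} {F : ℂ → ℂ} {r : ℕ}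

/-- upper windows give a zero-free continuation -/
theorem ext_of_WUp (E : TData S (tn S (Bs : Set S.X) tr ω) D)
    (hB : ∀ x ∈ Bs, ∀ s : ℂ, (ω + 1) / 2 ≤ s.re → (B x).eval (((S.N x : ℕ) : ℂ) ^ (-s)) ≠ 0)
    (hF : IsContB S Bs B tr ω F) {l C : ℝ} (hl : 1 < l) (hC : 0 < C)
    (h : WUp (PP S (Bs : Set S.X) tr ω) l C) :
    ∃ G : ℂ → ℂ, IsFullB S Bs B tr ω G ∧ ∀ s : ℝ, (ω + 1) / 2 < s → F s = G s := by
  have hconv := conv_of_incr (PhiB_data E hB hF) (Real.log_pos hl) (incr_of_WUp hl hC h)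
  refine ⟨_, (FC_isFull E hconv).isFullB E hB, fun s hs => ?_⟩
  have h1 : F s * BB S Bs B s = FC S (Bs : Set S.X) tr ω s := (hF.isCont E hB).eq_FC E hconv hs
  show F s = FC S (Bs : Set S.X) tr ω s * (BB S Bs B s)⁻¹
  rw [← h1, mul_inv_cancel_right₀]
  exact BB_ne hB (by rw [Complex.ofReal_re]; linarith)

/-- the order at the centre is finite -/
theorem order_finite (E : TData S (tn S (Bs : Set S.X) tr ω) D)
    (hB : ∀ x ∈ Bs, ∀ s : ℂ, (ω + 1) / 2 ≤ s.re → (B x).eval (((S.N x : ℕ) : ℂ) ^ (-s)) ≠ 0)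
    (hF : IsContB S Bs B tr ω F) (hAn : AnalyticAt ℂ F (((ω + 1) / 2 : ℝ) : ℂ)) :
    ∃ n : ℕ, analyticOrderAt F (((ω + 1) / 2 : ℝ) : ℂ) = n := by
  by_contra hcon
  have htop : analyticOrderAt F (((ω + 1) / 2 : ℝ) : ℂ) = ⊤ := by
    by_contra h
    exact hcon ⟨_, (ENat.natCast_toNat h).symm⟩
  rw [analyticOrderAt_eq_top] at htop
  set U : Set ℂ := (fun s : ℝ => (s : ℂ)) '' Set.Ici ((ω + 1) / 2) with hU
  have hUc : IsPreconnected U :=
    (convex_Ici _).isPreconnected.image _ Complex.continuous_ofReal.continuousOn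
  have hUa : AnalyticOnNhd ℂ F U := by
    rintro _ ⟨s, hs, rfl⟩
    rcases eq_or_lt_of_le (show (ω + 1) / 2 ≤ s from hs) with h | h
    · simp only [← h]; exact hAn
    · exact hF.1 s h
  have hz := hUa.eqOn_zero_of_preconnected_of_eventuallyEq_zero hUc
    ⟨(ω + 1) / 2, Set.mem_Ici.mpr le_rfl, rfl⟩ htop
  have h1 : F (((ω + 2) / 2 + 1 : ℝ) : ℂ) = 0 :=
    hz ⟨(ω + 2) / 2 + 1, Set.mem_Ici.mpr (by linarith), rfl⟩
  have h2 := (hF.isCont E hB).2 ((ω + 2) / 2 + 1) (by linarith)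
  have h3 := FC_eq E (s := (((ω + 2) / 2 + 1 : ℝ) : ℂ)) (by rw [Complex.ofReal_re]; linarith)
  simp only [] at h2
  rw [h1, zero_mul, ← h3] at h2
  exact FC_ne_zero _ h2.symm

theorem bdd_of_lim (E : TData S (tn S (Bs : Set S.X) tr ω) D) {m κ : ℝ}
    (h : Tendsto (fun u : ℝ => aa S (tn S (Bs : Set S.X) tr ω) u -
      Pool.Agent.W263.EP.sc S (tn S (Bs : Set S.X) tr ω) u - m * Real.log u) atTop (𝓝 κ)) :
    ∃ M : ℝ, ∀ᶠ u : ℝ in atTop, |aa S (tn S (Bs : Set S.X) tr ω) u - m * Real.log u| ≤ M := by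
  obtain ⟨M', hM'⟩ := E.sc_bounded
  refine ⟨|κ| + 1 + M', ?_⟩
  filter_upwards [h.eventually (Metric.ball_mem_nhds _ one_pos), eventually_gt_atTop 0]
    with u h2 h3
  rw [Real.dist_eq] at h2
  have h4 := hM' u h3
  have h5 : aa S (tn S (Bs : Set S.X) tr ω) u - m * Real.log u =
      ((aa S (tn S (Bs : Set S.X) tr ω) u -
        Pool.Agent.W263.EP.sc S (tn S (Bs : Set S.X) tr ω) u - m * Real.log u) - κ) + κ +
      Pool.Agent.W263.EP.sc S (tn S (Bs : Set S.X) tr ω) u := by ring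
  rw [h5]
  refine (abs_add_le _ _).trans (add_le_add ((abs_add_le _ _).trans ?_) h4)
  linarith

/-- **Which power of the logarithm?** -/
theorem lim_iff_order (E : TData S (tn S (Bs : Set S.X) tr ω) D) (hS : SlowSys S)
    (hB : ∀ x ∈ Bs, ∀ s : ℂ, (ω + 1) / 2 ≤ s.re → (B x).eval (((S.N x : ℕ) : ℂ) ^ (-s)) ≠ 0)
    (hF : IsContB S Bs B tr ω F) (hAn : AnalyticAt ℂ F (((ω + 1) / 2 : ℝ) : ℂ))
    (hr : analyticOrderAt F (((ω + 1) / 2 : ℝ) : ℂ) = r) (g : ℝ) :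
    (∃ A : ℝ, 0 < A ∧ Tendsto (fun x : ℝ => QQ S Bs B tr ω x / Real.log x ^ g) atTop (𝓝 A)) ↔
      (r : ℝ) = g ∧ ∃ l : ℝ, 1 < l ∧ ∀ C : ℝ, 1 < C → WUp (PP S (Bs : Set S.X) tr ω) l C := by
  have T := limit_tfae' E hS hB hF hAn hr
  have hbc := bc_pos hB
  have hΛ : 0 < lead F ((ω + 1) / 2) r := (lead_limit_at hAn hr).1
  constructor
  · rintro ⟨A, hA, h⟩
    have h2 : ∃ m A : ℝ, 0 < A ∧
        Tendsto (fun x : ℝ => QQ S Bs B tr ω x / Real.log x ^ m) atTop (𝓝 A) := ⟨g, A, hA, h⟩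
    have h3 := (T.out 1 2).mp h2
    refine ⟨?_, h3⟩
    have h1 : Tendsto (fun x : ℝ => QQ S Bs B tr ω x / Real.log x ^ r) atTop
        (𝓝 (Real.exp (r * Real.eulerMascheroniConstant) / lead F ((ω + 1) / 2) r)) :=
      (T.out 1 0).mp h2
    obtain ⟨M, hM⟩ := bdd_of_lim E (lim_of_QQ E hbc hA h)
    obtain ⟨M', hM'⟩ := bdd_of_lim E (lim_of_QQ E hbc (m := r)
      (A := Real.exp (r * Real.eulerMascheroniConstant) / lead F ((ω + 1) / 2) r)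
      (div_pos (Real.exp_pos _) hΛ) (h1.congr fun x => by rw [Real.rpow_natCast]))
    exact exponent_unique hM' hM
  · rintro ⟨rfl, h⟩
    have h1 : Tendsto (fun x : ℝ => QQ S Bs B tr ω x / Real.log x ^ r) atTop
        (𝓝 (Real.exp (r * Real.eulerMascheroniConstant) / lead F ((ω + 1) / 2) r)) :=
      (T.out 2 0).mp h
    refine ⟨_, div_pos (Real.exp_pos (r * Real.eulerMascheroniConstant)) hΛ,
      h1.congr fun x => ?_⟩
    rw [Real.rpow_natCast]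

theorem eord_iff_order (E : TData S (tn S (Bs : Set S.X) tr ω) D) (hS : SlowSys S)
    (hB : ∀ x ∈ Bs, ∀ s : ℂ, (ω + 1) / 2 ≤ s.re → (B x).eval (((S.N x : ℕ) : ℂ) ^ (-s)) ≠ 0)
    (hF : IsContB S Bs B tr ω F) (hAn : AnalyticAt ℂ F (((ω + 1) / 2 : ℝ) : ℂ))
    (hr : analyticOrderAt F (((ω + 1) / 2 : ℝ) : ℂ) = r) (g : ℝ) :
    EOrd (PP S (Bs : Set S.X) tr ω) g ↔
      (r : ℝ) = g ∧ ∃ l C : ℝ, 1 < l ∧ 0 < C ∧ WUp (PP S (Bs : Set S.X) tr ω) l C := by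
  have T := order_tfae' E hS hB hF hAn hr
  constructor
  · intro h
    have h2 : ∃ m : ℝ, EOrd (PP S (Bs : Set S.X) tr ω) m := ⟨g, h⟩
    refine ⟨?_, (T.out 1 2).mp h2⟩
    have h1 : EOrd (PP S (Bs : Set S.X) tr ω) r := (T.out 1 0).mp h2
    obtain ⟨M, hM⟩ := bdd_of_EOrd h
    obtain ⟨M', hM'⟩ := bdd_of_EOrd h1
    exact exponent_unique hM' hM
  · rintro ⟨rfl, h⟩
    exact (T.out 2 0).mp h

end Pool.Agent.W524.LV
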