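import Pool.Agent.W524.LV.Tf

/-! The criteria with bad factors. -/

set_option autoImplicit false

namespace Pool.Agent.W524.LV

open MeasureTheory Filter Topology Set Classical
open Pool.Agent.W263.BSD hiding sc ff sc_meas ff_meas GG hh mm aa
open Pool.Agent.W263.EP
open Pool.Agent.H341R2 (NormSys)

section Gen

variable {S : NormSys} {Bs : Finset S.X} {B : S.X → Polynomial ℂ} {tr : S.X → ℕ → ℝ} {ω : ℝ}
  {D : ℝ} {F : ℂ → ℂ} {r : ℕ}

/-- the leading coefficient -/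
noncomputable def lead (F : ℂ → ℂ) (c : ℝ) (r : ℕ) : ℝ :=
  ‖iteratedDeriv r F c‖ / (r.factorial : ℝ)

theorem ordZero_shift {H : ℂ → ℂ} {c : ℝ} (hH : AnalyticAt ℂ H (c : ℂ))
    (hr : analyticOrderAt H (c : ℂ) = r) {d : ℂ} (hd : d = (c : ℂ)) :
    OrdZero (fun w : ℂ => H (d + w)) r := by
  obtain ⟨g, hg, hg0, hge⟩ := (hH.analyticOrderAt_eq_natCast).mp hr
  refine ⟨fun w => g (d + w), ?_, ?_, ?_⟩
  · refine AnalyticAt.comp_of_eq (g := g) (f := fun w : ℂ => d + w) hg (by fun_prop) ?_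
    rw [add_zero, hd]
  · simp only [add_zero, hd]
    exact hg0
  · have h1 : Tendsto (fun w : ℂ => d + w) (𝓝 0) (𝓝 (c : ℂ)) := by
      have : Continuous fun w : ℂ => d + w := by fun_prop
      have h2 := this.tendsto 0
      rw [add_zero] at h2
      rw [← hd]
      exact h2
    filter_upwards [h1.eventually hge] with w hw
    rw [hw, smul_eq_mul, hd, add_sub_cancel_left]

theorem order_BB (hB : ∀ x ∈ Bs, ∀ s : ℂ, (ω + 1) / 2 ≤ s.re →
    (B x).eval (((S.N x : ℕ) : ℂ) ^ (-s)) ≠ 0)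
    (hF : AnalyticAt ℂ F (((ω + 1) / 2 : ℝ) : ℂ))
    (hr : analyticOrderAt F (((ω + 1) / 2 : ℝ) : ℂ) = r) :
    analyticOrderAt (fun s => F s * BB S Bs B s) (((ω + 1) / 2 : ℝ) : ℂ) = r := by
  have h1 : AnalyticAt ℂ (BB S Bs B) (((ω + 1) / 2 : ℝ) : ℂ) := BB_diff.analyticAt _
  have h2 : analyticOrderAt (BB S Bs B) (((ω + 1) / 2 : ℝ) : ℂ) = 0 :=
    h1.analyticOrderAt_eq_zero.mpr (BB_ne hB (by rw [Complex.ofReal_re]))
  have h3 := analyticOrderAt_mul hF h1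
  rw [h2, hr, add_zero] at h3
  exact h3

/-- the function in the shifted variable -/
noncomputable def PhiB (S : NormSys) (Bs : Finset S.X) (B : S.X → Polynomial ℂ) (ω : ℝ)
    (F : ℂ → ℂ) (w : ℂ) : ℂ :=
  F (((ω : ℂ) + 1) / 2 + w) * BB S Bs B (((ω : ℂ) + 1) / 2 + w)

theorem PhiB_ord (hB : ∀ x ∈ Bs, ∀ s : ℂ, (ω + 1) / 2 ≤ s.re →
    (B x).eval (((S.N x : ℕ) : ℂ) ^ (-s)) ≠ 0)
    (hAn : AnalyticAt ℂ F (((ω + 1) / 2 : ℝ) : ℂ))
    (hr : analyticOrderAt F (((ω + 1) / 2 : ℝ) : ℂ) = r) : OrdZero (PhiB S Bs B ω F) r := by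
  have h := ordZero_shift (H := fun s => F s * BB S Bs B s) (c := (ω + 1) / 2)
    (hAn.mul (BB_diff.analyticAt _)) (order_BB hB hAn hr) (d := ((ω : ℂ) + 1) / 2)
    (by push_cast; ring)
  exact h

theorem PhiB_ne (hB : ∀ x ∈ Bs, ∀ s : ℂ, (ω + 1) / 2 ≤ s.re →
    (B x).eval (((S.N x : ℕ) : ℂ) ^ (-s)) ≠ 0)
    (hne : ∀ s : ℝ, (ω + 1) / 2 < s → F s ≠ 0) (w : ℝ) (hw : 0 < w) :
    PhiB S Bs B ω F w ≠ 0 := by
  have h1 := centre_cast (ω := ω) w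
  unfold PhiB
  rw [← h1]
  exact mul_ne_zero (hne _ (by linarith)) (BB_ne hB (by rw [Complex.ofReal_re]; linarith))

theorem PhiB_data (E : TData S (tn S (Bs : Set S.X) tr ω) D)
    (hB : ∀ x ∈ Bs, ∀ s : ℂ, (ω + 1) / 2 ≤ s.re → (B x).eval (((S.N x : ℕ) : ℂ) ^ (-s)) ≠ 0)
    (hF : IsContB S Bs B tr ω F) : DataU 1 (aa S (tn S (Bs : Set S.X) tr ω)) (PhiB S Bs B ω F)
      (Pool.Agent.W263.EP.GG S (tn S (Bs : Set S.X) tr ω)) (1 / 2) := by
  have h := (hF.isCont E hB).dataU E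
  exact h

theorem lead_lim (hAn : AnalyticAt ℂ F (((ω + 1) / 2 : ℝ) : ℂ))
    (hr : analyticOrderAt F (((ω + 1) / 2 : ℝ) : ℂ) = r) :
    Tendsto (fun s : ℝ => ‖F s‖ / (s - (ω + 1) / 2) ^ r) (𝓝[>] ((ω + 1) / 2))
      (𝓝 (lead F ((ω + 1) / 2) r)) := (lead_limit_at hAn hr).2

theorem PhiB_norm (w : ℝ) : ‖PhiB S Bs B ω F w‖ =
    ‖F (((ω + 1) / 2 + w : ℝ) : ℂ) * BB S Bs B (((ω + 1) / 2 + w : ℝ) : ℂ)‖ := by
  unfold PhiB
  rw [centre_cast]

theorem PhiB_lim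
    (hAn : AnalyticAt ℂ F (((ω + 1) / 2 : ℝ) : ℂ))
    (hr : analyticOrderAt F (((ω + 1) / 2 : ℝ) : ℂ) = r) :
    Tendsto (fun w : ℝ => ‖PhiB S Bs B ω F w‖ / w ^ r) (𝓝[>] 0)
      (𝓝 (lead F ((ω + 1) / 2) r * bc S Bs B ω)) := by
  have h0 := lead_bad (B := B) (Bs := Bs) (lead_lim hAn hr)
  have h1 := shift_limit (H := fun s => F s * BB S Bs B s) (c := (ω + 1) / 2) h0
  simp only [PhiB_norm]
  exact h1

/-- everything which is needed at the centre -/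
theorem centre (E : TData S (tn S (Bs : Set S.X) tr ω) D)
    (hB : ∀ x ∈ Bs, ∀ s : ℂ, (ω + 1) / 2 ≤ s.re → (B x).eval (((S.N x : ℕ) : ℂ) ^ (-s)) ≠ 0)
    (hF : IsContB S Bs B tr ω F) (hAn : AnalyticAt ℂ F (((ω + 1) / 2 : ℝ) : ℂ))
    (hr : analyticOrderAt F (((ω + 1) / 2 : ℝ) : ℂ) = r) :
    ∃ (Φ : ℂ → ℂ), DataU 1 (aa S (tn S (Bs : Set S.X) tr ω)) Φ
      (Pool.Agent.W263.EP.GG S (tn S (Bs : Set S.X) tr ω)) (1 / 2) ∧ OrdZero Φ r ∧
      0 < lead F ((ω + 1) / 2) r ∧ 0 < bc S Bs B ω ∧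
      Tendsto (fun w : ℝ => ‖Φ w‖ / w ^ r) (𝓝[>] 0) (𝓝 (lead F ((ω + 1) / 2) r * bc S Bs B ω)) ∧
      ((∀ s : ℝ, (ω + 1) / 2 < s → F s ≠ 0) → ∀ w : ℝ, 0 < w → Φ w ≠ 0) :=
  ⟨PhiB S Bs B ω F, PhiB_data E hB hF, PhiB_ord hB hAn hr, (lead_limit_at hAn hr).1, bc_pos hB,
    PhiB_lim hAn hr, fun hne w hw => PhiB_ne hB hne w hw⟩

/-- **Exact order of magnitude and one-sided windows.** -/
theorem order_tfae' (E : TData S (tn S (Bs : Set S.X) tr ω) D) (hS : SlowSys S)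
    (hB : ∀ x ∈ Bs, ∀ s : ℂ, (ω + 1) / 2 ≤ s.re → (B x).eval (((S.N x : ℕ) : ℂ) ^ (-s)) ≠ 0)
    (hF : IsContB S Bs B tr ω F) (hAn : AnalyticAt ℂ F (((ω + 1) / 2 : ℝ) : ℂ))
    (hr : analyticOrderAt F (((ω + 1) / 2 : ℝ) : ℂ) = r) :
    List.TFAE [
      EOrd (PP S (Bs : Set S.X) tr ω) r,
      ∃ m : ℝ, EOrd (PP S (Bs : Set S.X) tr ω) m,
      ∃ l C : ℝ, 1 < l ∧ 0 < C ∧ WUp (PP S (Bs : Set S.X) tr ω) l C,
      (∀ s : ℝ, (ω + 1) / 2 < s → F s ≠ 0) ∧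
        ∃ l C : ℝ, 1 < l ∧ 0 < C ∧ WLo (PP S (Bs : Set S.X) tr ω) l C,
      (∀ s : ℝ, (ω + 1) / 2 < s → F s ≠ 0) ∧ ∀ l : ℝ, 1 < l → ∃ C : ℝ, 0 < C ∧
        WUp (PP S (Bs : Set S.X) tr ω) l C ∧ WLo (PP S (Bs : Set S.X) tr ω) l C] := by
  obtain ⟨Φ, P, hO, hΛ, hbc, hlim, hne⟩ := centre E hB hF hAn hr
  tfae_have 1 → 2 := fun h => ⟨r, h⟩
  tfae_have 2 → 5 := by
    rintro ⟨m, h⟩
    obtain ⟨M, hM⟩ := bdd_of_EOrd h
    have hconv := conv_of_bdd P hM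
    refine ⟨fun s hs h0 => ?_, fun l hl => ?_⟩
    · have h1 := ne_of_conv E (hF.isCont E hB) hconv s hs
      exact h1 (by simp only [h0, zero_mul])
    · obtain ⟨u0, h1⟩ := incr_of_bdd hM (Real.log l)
      exact ⟨Real.exp (2 * M + 1), Real.exp_pos _,
        WUp_of_incr hl ⟨u0, fun u v e1 e2 e3 => by
          have := (abs_le.mp (h1 u v e1 e2 e3)).2
          linarith⟩,
        WLo_of_incr hl ⟨u0, fun u v e1 e2 e3 => by
          have := (abs_le.mp (h1 u v e1 e2 e3)).1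
          linarith⟩⟩
  tfae_have 5 → 3 := by
    rintro ⟨_, h⟩
    obtain ⟨C, hC, h1, _⟩ := h 2 (by norm_num)
    exact ⟨2, C, by norm_num, hC, h1⟩
  tfae_have 5 → 4 := by
    rintro ⟨h0, h⟩
    obtain ⟨C, hC, _, h1⟩ := h 2 (by norm_num)
    exact ⟨h0, 2, C, by norm_num, hC, h1⟩
  tfae_have 3 → 1 := by
    rintro ⟨l, C, hl, hC, h⟩
    obtain ⟨M, hM⟩ := order_up E hS P hO (mul_pos hΛ hbc) hlim (Real.log_pos hl)
      (incr_of_WUp hl hC h)
    exact EOrd_of_bdd hM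
  tfae_have 4 → 1 := by
    rintro ⟨h0, l, C, hl, hC, h⟩
    obtain ⟨M, hM⟩ := order_lo E hS P hO (mul_pos hΛ hbc) hlim (hne h0) (Real.log_pos hl)
      (incr_of_WLo hl hC h)
    exact EOrd_of_bdd hM
  tfae_finish

/-- the corrected product with the bad factors -/
noncomputable def QQ (S : NormSys) (Bs : Finset S.X) (B : S.X → Polynomial ℂ) (tr : S.X → ℕ → ℝ)
    (ω : ℝ) (x : ℝ) : ℝ := bc S Bs B ω * PS S (Bs : Set S.X) tr ω x

theorem lim_of_QQ (E : TData S (tn S (Bs : Set S.X) tr ω) D) (hbc : 0 < bc S Bs B ω) {m A : ℝ}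
    (hA : 0 < A) (h : Tendsto (fun x : ℝ => QQ S Bs B tr ω x / Real.log x ^ m) atTop (𝓝 A)) :
    Tendsto (fun u : ℝ => aa S (tn S (Bs : Set S.X) tr ω) u -
      Pool.Agent.W263.EP.sc S (tn S (Bs : Set S.X) tr ω) u - m * Real.log u) atTop
      (𝓝 (Real.log A - Real.log (bc S Bs B ω))) := by
  have h1 := ((h.comp Real.tendsto_exp_atTop).log hA.ne').sub_const (Real.log (bc S Bs B ω))
  refine h1.congr' ?_
  filter_upwards [eventually_gt_atTop 0] with u hu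
  simp only [Function.comp_apply]
  unfold QQ
  rw [Real.log_exp, Real.log_div (mul_pos hbc (PS_pos _)).ne' (Real.rpow_pos_of_pos hu m).ne',
    Real.log_mul hbc.ne' (PS_pos _).ne', Real.log_rpow hu, log_PS E hu.le]
  ring

/-- **The limit and one-sided windows.** -/
theorem limit_tfae' (E : TData S (tn S (Bs : Set S.X) tr ω) D) (hS : SlowSys S)
    (hB : ∀ x ∈ Bs, ∀ s : ℂ, (ω + 1) / 2 ≤ s.re → (B x).eval (((S.N x : ℕ) : ℂ) ^ (-s)) ≠ 0)
    (hF : IsContB S Bs B tr ω F) (hAn : AnalyticAt ℂ F (((ω + 1) / 2 : ℝ) : ℂ))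
    (hr : analyticOrderAt F (((ω + 1) / 2 : ℝ) : ℂ) = r) :
    List.TFAE [
      Tendsto (fun x : ℝ => QQ S Bs B tr ω x / Real.log x ^ r) atTop
        (𝓝 (Real.exp (r * Real.eulerMascheroniConstant) / lead F ((ω + 1) / 2) r)),
      ∃ m A : ℝ, 0 < A ∧ Tendsto (fun x : ℝ => QQ S Bs B tr ω x / Real.log x ^ m) atTop (𝓝 A),
      ∃ l : ℝ, 1 < l ∧ ∀ C : ℝ, 1 < C → WUp (PP S (Bs : Set S.X) tr ω) l C,
      (∀ s : ℝ, (ω + 1) / 2 < s → F s ≠ 0) ∧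
        ∃ l : ℝ, 1 < l ∧ ∀ C : ℝ, 1 < C → WLo (PP S (Bs : Set S.X) tr ω) l C,
      (∀ s : ℝ, (ω + 1) / 2 < s → F s ≠ 0) ∧ ∀ l C : ℝ, 1 < l → 1 < C →
        WUp (PP S (Bs : Set S.X) tr ω) l C ∧ WLo (PP S (Bs : Set S.X) tr ω) l C] := by
  obtain ⟨Φ, P, hO, hΛ, hbc, hlim, hne⟩ := centre E hB hF hAn hr
  have hQ : ∀ {n : ℕ}, Tendsto (Pool.Agent.W263.EP.ff S (tn S (Bs : Set S.X) tr ω) n) atTop
      (𝓝 (-Real.log (lead F ((ω + 1) / 2) r * bc S Bs B ω) + n * Real.eulerMascheroniConstant)) →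
      Tendsto (fun x : ℝ => QQ S Bs B tr ω x / Real.log x ^ n) atTop
        (𝓝 (Real.exp (n * Real.eulerMascheroniConstant) / lead F ((ω + 1) / 2) r)) := by
    intro n h
    have h1 := (PS_of_ff E (mul_pos hΛ hbc) h).const_mul (bc S Bs B ω)
    have h2 : bc S Bs B ω * (Real.exp (n * Real.eulerMascheroniConstant) /
        (lead F ((ω + 1) / 2) r * bc S Bs B ω)) =
        Real.exp (n * Real.eulerMascheroniConstant) / lead F ((ω + 1) / 2) r := by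
      field_simp
    rw [h2] at h1
    refine h1.congr fun x => ?_
    unfold QQ
    ring
  tfae_have 1 → 2 := by
    intro h
    refine ⟨r, _, by positivity, h.congr fun x => ?_⟩
    rw [Real.rpow_natCast]
  tfae_have 2 → 5 := by
    rintro ⟨m, A, hA, h⟩
    have h1 := lim_of_QQ E hbc hA h
    obtain ⟨M', hM'⟩ := E.sc_bounded
    have hbd : ∀ᶠ u : ℝ in atTop, |aa S (tn S (Bs : Set S.X) tr ω) u - m * Real.log u| ≤
        |Real.log A - Real.log (bc S Bs B ω)| + 1 + M' := by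
      filter_upwards [h1.eventually (Metric.ball_mem_nhds _ one_pos), eventually_gt_atTop 0]
        with u h2 h3
      rw [Real.dist_eq] at h2
      have h4 := hM' u h3
      have h5 : aa S (tn S (Bs : Set S.X) tr ω) u - m * Real.log u =
          ((aa S (tn S (Bs : Set S.X) tr ω) u -
            Pool.Agent.W263.EP.sc S (tn S (Bs : Set S.X) tr ω) u - m * Real.log u) -
            (Real.log A - Real.log (bc S Bs B ω))) + (Real.log A - Real.log (bc S Bs B ω)) +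
          Pool.Agent.W263.EP.sc S (tn S (Bs : Set S.X) tr ω) u := by ring
      rw [h5]
      refine (abs_add_le _ _).trans (add_le_add ((abs_add_le _ _).trans ?_) h4)
      linarith
    have hconv := conv_of_bdd P hbd
    refine ⟨fun s hs h0 => ?_, fun l C hl hC => ?_⟩
    · have h2 := ne_of_conv E (hF.isCont E hB) hconv s hs
      exact h2 (by simp only [h0, zero_mul])
    · obtain ⟨u0, h2⟩ := incr_of_lim E hS h1 (Real.log l) (Real.log_pos hC)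
      have hC0 : 0 < C := by linarith
      have e : C = Real.exp (Real.log C) := (Real.exp_log hC0).symm
      rw [e]
      exact ⟨WUp_of_incr hl ⟨u0, fun u v e1 e2 e3 => by
          have := (abs_le.mp (h2 u v e1 e2 e3)).2
          linarith⟩,
        WLo_of_incr hl ⟨u0, fun u v e1 e2 e3 => by
          have := (abs_le.mp (h2 u v e1 e2 e3)).1
          linarith⟩⟩
  tfae_have 5 → 3 := by
    rintro ⟨_, h⟩
    exact ⟨2, by norm_num, fun C hC => (h 2 C (by norm_num) hC).1⟩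
  tfae_have 5 → 4 := by
    rintro ⟨h0, h⟩
    exact ⟨h0, 2, by norm_num, fun C hC => (h 2 C (by norm_num) hC).2⟩
  tfae_have 3 → 1 := by
    rintro ⟨l, hl, h⟩
    refine hQ (limit_up E hS P hO (mul_pos hΛ hbc) hlim (Real.log_pos hl) fun ε hε => ?_)
    have h1 := incr_of_WUp hl (Real.exp_pos ε) (h (Real.exp ε) (Real.one_lt_exp_iff.mpr hε))
    simpa only [Real.log_exp] using h1
  tfae_have 4 → 1 := by
    rintro ⟨h0, l, hl, h⟩
    refine hQ (limit_lo E hS P hO (mul_pos hΛ hbc) hlim (hne h0) (Real.log_pos hl) fun ε hε => ?_)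
    have h1 := incr_of_WLo hl (Real.exp_pos ε) (h (Real.exp ε) (Real.one_lt_exp_iff.mpr hε))
    simpa only [Real.log_exp] using h1
  tfae_finish

end Gen

end Pool.Agent.W524.LV
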