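import Pool.Agent.W524.LV.Ext

/-! Convergence in the mean from a sharp one-sided bound. -/

set_option autoImplicit false

namespace Pool.Agent.W524.LV

open MeasureTheory Filter Topology Set Classical
open Pool.Agent.W263.BSD (LInt lapC)
open Pool.Agent.W136.FR

variable {f : ℝ → ℝ} {h : ℂ → ℂ} {ρ : ℝ}

/-- **Convergence in the mean from a one-sided bound.** -/
theorem l1_tendsto (H : Hyp f h ρ) {b : ℝ} (hb : 0 < b)
    (hf : ∀ ε : ℝ, 0 < ε → ∀ᶠ u : ℝ in atTop, f u ≤ ε) :
    Tendsto (fun v : ℝ => ∫ u in Ioc v (v + b), |f u|) atTop (𝓝 0) := by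
  have hρ := H.pos
  set α : ℝ := min (ρ / 16) (1 / b) with hα'
  have hα : 0 < α := lt_min (by positivity) (by positivity)
  have hα4 : 4 * α ≤ ρ / 4 := by
    have : α ≤ ρ / 16 := min_le_left _ _
    linarith
  have hαb : α * b ≤ 1 := by
    have : α ≤ 1 / b := min_le_right _ _
    rwa [le_div_iff₀ hb] at this
  have hU : Upper f := by
    obtain ⟨u1, h1⟩ := eventually_atTop.mp (hf 1 one_pos)
    refine ⟨1, max u1 0, zero_le_one, le_max_right _ _, fun u hu => ?_⟩
    have e1 := h1 u ((le_max_left _ _).trans hu)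
    have e2 : 0 ≤ u := (le_max_right _ _).trans hu
    linarith
  have hS := smooth_tendsto H hU hα hα4
  have hloc := local_int H.int
  set I0 := ∫ t, ker α t with hI0
  have hI00 : 0 ≤ I0 := integral_nonneg (ker_nonneg α)
  obtain ⟨CK, hCK0, hCK⟩ := ker_bound hα
  -- the positive part
  have hP : Tendsto (fun v : ℝ => ∫ u in Ioi 0, max (f u) 0 * ker α (u - v)) atTop (𝓝 0) := by
    rw [Metric.tendsto_atTop]
    intro ε hε
    obtain ⟨u1, h1⟩ := eventually_atTop.mp (hf (ε / (2 * (I0 + 1))) (by positivity))
    set U := max u1 0 with hUdef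
    have hU0 : 0 ≤ U := le_max_right _ _
    set N := ∫ u in Ioc 0 U, |f u| with hN
    have hN0 : 0 ≤ N := integral_nonneg fun u => abs_nonneg _
    refine ⟨U + (4 * CK * (N + 1) / ε + 1), fun v hv => ?_⟩
    have hc0 : 0 ≤ 4 * CK * (N + 1) / ε := by positivity
    have hvU : 0 < v - U := by linarith
    set κ := CK / (v - U) with hκ
    have hκ0 : 0 < κ := by positivity
    have hκN : κ * N < ε / 2 := by
      have e1 : 4 * CK * (N + 1) / ε < v - U := by linarith
      rw [div_lt_iff₀ hε] at e1
      rw [hκ, div_mul_eq_mul_div, div_lt_iff₀ hvU]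
      nlinarith
    have hk := ker_shift_int hα v
    have hpi := pos_int H hU hα v
    have hind : Integrable ((Ioc 0 U).indicator fun u => |f u|) :=
      (integrable_indicator_iff measurableSet_Ioc).mpr (hloc U).abs
    have hmaj : Integrable fun u : ℝ => κ * (Ioc 0 U).indicator (fun u => |f u|) u +
        ε / (2 * (I0 + 1)) * ker α (u - v) := (hind.const_mul κ).add (hk.const_mul _)
    have e1 : ∫ u in Ioi 0, max (f u) 0 * ker α (u - v) ≤
        ∫ u in Ioi 0, (κ * (Ioc 0 U).indicator (fun u => |f u|) u +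
        ε / (2 * (I0 + 1)) * ker α (u - v)) := by
      refine setIntegral_mono_on hpi hmaj.integrableOn measurableSet_Ioi fun u hu => ?_
      have hu' : (0 : ℝ) < u := hu
      have hk0 := ker_nonneg α (u - v)
      have hi0 : 0 ≤ (Ioc 0 U).indicator (fun u => |f u|) u :=
        indicator_nonneg (fun u _ => abs_nonneg _) u
      rcases le_or_gt u U with h3 | h3
      · rw [indicator_of_mem (show u ∈ Ioc 0 U from ⟨hu', h3⟩)]
        have e1 : max (f u) 0 ≤ |f u| := max_le (le_abs_self _) (abs_nonneg _)
        have e2 : ker α (u - v) ≤ κ := by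
          have e3 := hCK (u - v)
          have e4 : |u - v| = v - u := by rw [abs_of_neg (by linarith)]; ring
          rw [e4] at e3
          have e5 : CK * (1 + (u - v) ^ 2)⁻¹ ≤ CK :=
            mul_le_of_le_one_right hCK0.le (inv_le_one_of_one_le₀ (by nlinarith [sq_nonneg (u - v)]))
          rw [hκ, le_div_iff₀ hvU]
          have e6 : ker α (u - v) * (v - U) ≤ (1 + (v - u)) * ker α (u - v) := by
            rw [mul_comm]
            exact mul_le_mul_of_nonneg_right (by linarith) hk0
          linarith
        have e7 : max (f u) 0 * ker α (u - v) ≤ |f u| * κ :=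
          mul_le_mul e1 e2 hk0 (abs_nonneg _)
        have e8 : 0 ≤ ε / (2 * (I0 + 1)) * ker α (u - v) := by positivity
        linarith
      · have e0 := h1 u ((le_max_left _ _).trans h3.le)
        have e1 : max (f u) 0 ≤ ε / (2 * (I0 + 1)) := max_le e0 (by positivity)
        have e2 := mul_le_mul_of_nonneg_right e1 hk0
        have e3 : 0 ≤ κ * (Ioc 0 U).indicator (fun u => |f u|) u := by positivity
        linarith
    have e2 : ∫ u in Ioi 0, (κ * (Ioc 0 U).indicator (fun u => |f u|) u +
        ε / (2 * (I0 + 1)) * ker α (u - v)) ≤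
        ∫ u, (κ * (Ioc 0 U).indicator (fun u => |f u|) u +
        ε / (2 * (I0 + 1)) * ker α (u - v)) := by
      refine setIntegral_le_integral hmaj (Eventually.of_forall fun u => ?_)
      have hk0 := ker_nonneg α (u - v)
      have hi0 : 0 ≤ (Ioc 0 U).indicator (fun u => |f u|) u :=
        indicator_nonneg (fun u _ => abs_nonneg _) u
      show (0 : ℝ) ≤ _
      positivity
    have e3 : ∫ u, (κ * (Ioc 0 U).indicator (fun u => |f u|) u +
        ε / (2 * (I0 + 1)) * ker α (u - v)) = κ * N + ε / (2 * (I0 + 1)) * I0 := by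
      rw [integral_add (hind.const_mul κ) (hk.const_mul _), integral_const_mul,
        integral_const_mul, integral_indicator measurableSet_Ioc,
        integral_sub_right_eq_self (ker α) v]
    have e4 : ε / (2 * (I0 + 1)) * I0 ≤ ε / 2 := by
      rw [div_mul_eq_mul_div, div_le_div_iff₀ (by positivity) (by norm_num)]
      nlinarith
    have e5 : 0 ≤ ∫ u in Ioi 0, max (f u) 0 * ker α (u - v) :=
      integral_nonneg fun u => mul_nonneg (le_max_right _ _) (ker_nonneg _ _)
    rw [Real.dist_eq, sub_zero, abs_of_nonneg e5]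
    linarith
  -- the absolute value
  have hA : Tendsto (fun v : ℝ => 2 * (∫ u in Ioi 0, max (f u) 0 * ker α (u - v)) -
      ∫ u in Ioi 0, f u * ker α (u - v)) atTop (𝓝 0) := by
    have := (hP.const_mul 2).sub hS
    simpa using this
  refine squeeze_zero' (Eventually.of_forall fun v => integral_nonneg fun u => abs_nonneg _) ?_ hA
  filter_upwards [eventually_ge_atTop 0] with v hv
  have hpi := pos_int H hU hα v
  have hfi := full_int H hU hα hα4 v
  have e1 : ∫ u in Ioi 0, |f u| * ker α (u - v) =
      2 * (∫ u in Ioi 0, max (f u) 0 * ker α (u - v)) - ∫ u in Ioi 0, f u * ker α (u - v) := by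
    rw [← integral_const_mul, ← integral_sub (hpi.const_mul 2) hfi]
    refine integral_congr_ae (Eventually.of_forall fun u => ?_)
    simp only []
    rcases le_total (f u) 0 with h | h
    · rw [max_eq_right h, abs_of_nonpos h]; ring
    · rw [max_eq_left h, abs_of_nonneg h]; ring
  rw [← e1]
  have hai : IntegrableOn (fun u => |f u| * ker α (u - v)) (Ioi 0) := by
    have := ((hpi.const_mul 2).sub hfi)
    refine this.congr (Eventually.of_forall fun u => ?_)
    simp only [Pi.sub_apply]
    rcases le_total (f u) 0 with h | h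
    · rw [max_eq_right h, abs_of_nonpos h]; ring
    · rw [max_eq_left h, abs_of_nonneg h]; ring
  have hsub : Ioc v (v + b) ⊆ Ioi 0 := fun u hu => lt_of_le_of_lt hv hu.1
  have e2 : ∫ u in Ioc v (v + b), |f u| * ker α (u - v) ≤ ∫ u in Ioi 0, |f u| * ker α (u - v) := by
    refine setIntegral_mono_set hai ?_ hsub.eventuallyLE
    exact Eventually.of_forall fun u => mul_nonneg (abs_nonneg _) (ker_nonneg _ _)
  refine le_trans ?_ e2
  have hi : IntegrableOn (fun u => |f u|) (Ioc v (v + b)) :=
    ((hloc (v + b)).mono_set (Ioc_subset_Ioc_left hv)).abs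
  refine setIntegral_mono_on hi (hai.mono_set hsub) measurableSet_Ioc fun u hu => ?_
  have e4 : 1 ≤ ker α (u - v) := by
    apply ker_ge
    rw [abs_of_nonneg (mul_nonneg hα.le (by linarith [hu.1]))]
    have : u - v ≤ b := by linarith [hu.2]
    nlinarith
  exact le_mul_of_one_le_right (abs_nonneg _) e4

end Pool.Agent.W524.LV
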