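import Pool.Agent.W524.LV.Reg

/-! The local hypotheses of the theorem of Fatou and Riesz for Euler products over norm systems. -/

set_option autoImplicit false

namespace Pool.Agent.W524.LV

open MeasureTheory Filter Topology Set Classical
open Pool.Agent.W263.BSD hiding sc ff sc_meas ff_meas GG hh mm
open Pool.Agent.W263.EP
open Pool.Agent.H341R2 (NormSys)
open Pool.Agent.W136.FR (Hyp Upper local_log log_LInt log_lapC log_lap one_lapC lapC_sub'
  lapC_const_mul' eq_of_real Slow fatou_riesz)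

variable {S : NormSys} {t : S.X → ℕ → ℝ} {D : ℝ} {Φ : ℂ → ℂ} {c0 : ℝ} {r : ℕ}

/-- on a small half disc the continuation is given by the Laplace transform -/
theorem half_ball {a : ℝ → ℝ} {G : ℂ → ℂ} (P : DataU 1 a Φ G c0) (hr : OrdZero Φ r)
    (hconv : ∀ w > 0, LInt a w) : ∃ Φ' : ℂ → ℂ, OrdZero Φ' r ∧
      ∀ z : ℂ, 0 < z.re → Complex.exp (G z - z ^ 1 * lapC a z) = Φ' z := by
  obtain ⟨g, hg, hg0, hge⟩ := hr
  obtain ⟨ρ, hρ, h2⟩ := Metric.eventually_nhds_iff_ball.mp (hg.eventually_analyticAt.and hge)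
  refine ⟨fun z => if 0 < z.re then Complex.exp (G z - z ^ 1 * lapC a z) else z ^ r * g z,
    ⟨g, hg, hg0, ?_⟩, fun z hz => by simp only [if_pos hz]⟩
  set U : Set ℂ := {z : ℂ | 0 < z.re} ∩ Metric.ball 0 ρ with hU
  have hUo : IsOpen U := (isOpen_half 0).inter Metric.isOpen_ball
  have hUc : Convex ℝ U := (convex_halfSpace_re_gt 0).inter (convex_ball _ _)
  have hd : DifferentiableOn ℂ (fun z => Complex.exp (G z - z ^ 1 * lapC a z)) U := by
    intro z hz
    exact (P.cont_diff le_rfl hconv hz.1).differentiableWithinAt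
  have hd2 : DifferentiableOn ℂ (fun z => z ^ r * g z) U := by
    intro z hz
    exact (((differentiableAt_id.pow r)).mul (h2 z hz.2).1.differentiableAt).differentiableWithinAt
  have hmem : ((ρ / 2 : ℝ) : ℂ) ∈ U := by
    refine ⟨?_, ?_⟩
    · show 0 < ((ρ / 2 : ℝ) : ℂ).re
      rw [Complex.ofReal_re]; positivity
    · rw [Metric.mem_ball, dist_zero_right, Complex.norm_real,
        Real.norm_of_nonneg (by positivity)]
      linarith
  have hfr : ∃ᶠ z in 𝓝[≠] ((ρ / 2 : ℝ) : ℂ),
      Complex.exp (G z - z ^ 1 * lapC a z) = z ^ r * g z := by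
    have h4 : Tendsto (fun w : ℝ => (w : ℂ)) (𝓝[≠] (ρ / 2)) (𝓝[≠] ((ρ / 2 : ℝ) : ℂ)) := by
      refine tendsto_nhdsWithin_of_tendsto_nhds_of_eventually_within _
        (tendsto_nhdsWithin_of_tendsto_nhds (Complex.continuous_ofReal.tendsto _)) ?_
      filter_upwards [self_mem_nhdsWithin] with w hw
      intro hc
      exact hw (Complex.ofReal_injective hc)
    refine h4.frequently (Eventually.frequently ?_)
    filter_upwards [mem_nhdsWithin_of_mem_nhds (Ioo_mem_nhds (show 0 < ρ / 2 by positivity)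
      (show ρ / 2 < ρ by linarith))] with w hw
    have h5 := P.eq_of_conv le_rfl hconv hw.1
    unfold cont at h5
    rw [← h5]
    refine (h2 w ?_).2
    rw [Metric.mem_ball, dist_zero_right, Complex.norm_real, Real.norm_of_nonneg hw.1.le]
    exact hw.2
  have heq := (hd.analyticOnNhd hUo).eqOn_of_preconnected_of_frequently_eq
    (hd2.analyticOnNhd hUo) hUc.isPreconnected hmem hfr
  filter_upwards [Metric.ball_mem_nhds (0 : ℂ) hρ] with z hz
  by_cases h : 0 < z.re
  · simp only [if_pos h]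
    exact heq ⟨h, hz⟩
  · simp only [if_neg h]

/-- `log P* - r log log - C0` -/
noncomputable def f0 (S : NormSys) (t : S.X → ℕ → ℝ) (r : ℕ) (C0 : ℝ) (u : ℝ) : ℝ :=
  aa S t u - Pool.Agent.W263.EP.sc S t u - r * Real.log u - C0 * 1

theorem f0_meas (r : ℕ) (C0 : ℝ) : Measurable (f0 S t r C0) :=
  (((stp_meas _).sub Pool.Agent.W263.EP.sc_meas).sub (Real.measurable_log.const_mul _)).sub
    measurable_const

theorem f0_LInt (E : TData S t D) (hconv : ∀ w > 0, LInt (aa S t) w) (r : ℕ) (C0 : ℝ) :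
    ∀ w > 0, LInt (f0 S t r C0) w := fun _ hw =>
  (((hconv _ hw).sub (E.sc_LInt hw)).sub ((log_LInt hw).const_mul _)).sub
    ((one_LInt hw).const_mul _)

theorem f0_lapC (E : TData S t D) (hconv : ∀ w > 0, LInt (aa S t) w) (r : ℕ) (C0 : ℝ) {z : ℂ}
    (hz : 0 < z.re) : z * lapC (f0 S t r C0) z =
      z * lapC (aa S t) z - z * lapC (Pool.Agent.W263.EP.sc S t) z +
        r * ((Real.eulerMascheroniConstant : ℂ) + Complex.log z) - C0 := by
  have i1 := hconv _ hz
  have i2 := E.sc_LInt (S := S) (t := t) hz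
  have i3 := (log_LInt hz).const_mul (r : ℝ)
  have i4 := (one_LInt hz).const_mul C0
  have m1 : Measurable (aa S t) := stp_meas _
  have m2 : Measurable (Pool.Agent.W263.EP.sc S t) := Pool.Agent.W263.EP.sc_meas
  have m3 : Measurable fun u : ℝ => (r : ℝ) * Real.log u := Real.measurable_log.const_mul _
  have m4 : Measurable fun _ : ℝ => C0 * (1 : ℝ) := measurable_const
  have h1 : lapC (f0 S t r C0) z = lapC (aa S t) z - lapC (Pool.Agent.W263.EP.sc S t) z -
      ((r : ℝ) : ℂ) * lapC Real.log z - (C0 : ℂ) * lapC (fun _ => (1 : ℝ)) z := by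
    unfold f0
    rw [lapC_sub' (f := fun u => aa S t u - Pool.Agent.W263.EP.sc S t u - (r : ℝ) * Real.log u)
        (g := fun _ => C0 * 1) ((m1.sub m2).sub m3) m4 ((i1.sub i2).sub i3) i4,
      lapC_sub' (f := fun u => aa S t u - Pool.Agent.W263.EP.sc S t u)
        (g := fun u => (r : ℝ) * Real.log u)
        (m1.sub m2) m3 (i1.sub i2) i3, lapC_sub' m1 m2 i1 i2, lapC_const_mul',
      lapC_const_mul']
  have h2 := log_lapC hz
  have h3 := one_lapC hz
  rw [h1]
  push_cast
  linear_combination -(r : ℂ) * h2 - (C0 : ℂ) * h3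

/-- the local hypotheses hold -/
theorem local_hyp (E : TData S t D) (P : DataU 1 (aa S t) Φ (Pool.Agent.W263.EP.GG S t) c0)
    (hr : OrdZero Φ r) {c : ℝ} (hc0 : 0 < c)
    (hc : Tendsto (fun w : ℝ => ‖Φ w‖ / w ^ r) (𝓝[>] 0) (𝓝 c))
    (hconv : ∀ w > 0, LInt (aa S t) w) :
    ∃ (h : ℂ → ℂ) (ρ : ℝ), Hyp (f0 S t r (-Real.log c + r * Real.eulerMascheroniConstant)) h ρ := by
  set C0 : ℝ := -Real.log c + r * Real.eulerMascheroniConstant with hC0
  set lam : ℂ → ℂ := fun z => Pool.Agent.W263.EP.GG S t z - z ^ 1 * lapC (aa S t) z with hlam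
  obtain ⟨Φ', hr', heq⟩ := half_ball P hr hconv
  obtain ⟨ρ1, q, hρ1, hq, hlq⟩ := local_log (lam := lam) hr' (fun z hz =>
    (E.GG_diff hz).sub ((differentiableAt_id.pow 1).mul
      (lapC_differentiableAt P.meas hconv hz))) (fun z hz => heq z hz)
  set ρ : ℝ := min ρ1 (1 / 50) with hρ
  have hρ0 : 0 < ρ := lt_min hρ1 (by norm_num)
  set Q : ℂ → ℂ := fun z => H3 S t z - q z + ((r * Real.eulerMascheroniConstant - C0 : ℝ) : ℂ)
    with hQ
  have hQd : DifferentiableOn ℂ Q (Metric.ball 0 ρ) := by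
    have hsub1 : Metric.ball (0 : ℂ) ρ ⊆ {z : ℂ | -(1 / 50) < z.re} := by
      intro z hz
      rw [mem_ball_zero_iff] at hz
      have h1 := (abs_le.mp (Complex.abs_re_le_norm z)).1
      have h2 : ρ ≤ 1 / 50 := min_le_right _ _
      show -(1 / 50) < z.re
      linarith
    have hsub2 : Metric.ball (0 : ℂ) ρ ⊆ Metric.ball 0 ρ1 := Metric.ball_subset_ball (min_le_left _ _)
    exact (((H3_diff E).mono hsub1).sub (hq.mono hsub2)).add_const _
  have hQe : ∀ z : ℂ, 0 < z.re → ‖z‖ < ρ → z * lapC (f0 S t r C0) z = Q z := by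
    intro z hz hzρ
    have h1 := hlq z hz (lt_of_lt_of_le hzρ (min_le_left _ _))
    have h2 := GG_sub' E z hz
    have h3 := f0_lapC E hconv r C0 hz
    rw [hlam] at h1
    simp only [pow_one] at h1
    rw [h3, hQ]
    simp only []
    push_cast
    linear_combination -h1 + h2
  have hQ0 : Q 0 = 0 := by
    have h1 : Tendsto (fun w : ℝ => Q w) (𝓝[>] 0) (𝓝 (Q 0)) := by
      have h2 : ContinuousAt Q 0 :=
        (hQd.differentiableAt (Metric.ball_mem_nhds 0 hρ0)).continuousAt
      have h3 : Tendsto (fun w : ℝ => (w : ℂ)) (𝓝[>] 0) (𝓝 0) := by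
        have := Complex.continuous_ofReal.tendsto 0
        rw [Complex.ofReal_zero] at this
        exact tendsto_nhdsWithin_of_tendsto_nhds this
      exact h2.tendsto.comp h3
    have h4 := E.abel_limit P hconv hc0 hc
    have h5 := (ell_lap_limit.const_mul (r : ℝ))
    have h6 := (h4.add h5).add_const (r * Real.eulerMascheroniConstant - C0)
    have h7 : -Real.log c + r * Real.eulerMascheroniConstant + r * -Real.eulerMascheroniConstant +
        (r * Real.eulerMascheroniConstant - C0) = 0 := by rw [hC0]; ring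
    rw [h7] at h6
    have h8 := (Complex.continuous_ofReal.tendsto 0).comp h6
    rw [Complex.ofReal_zero] at h8
    refine tendsto_nhds_unique h1 (h8.congr' ?_)
    filter_upwards [self_mem_nhdsWithin, Ioo_mem_nhdsGT hρ0] with w hw1 hw2
    have hw : (0 : ℝ) < w := hw1
    have h9 := hQe w (by simpa using hw) (by
      rw [Complex.norm_real, Real.norm_of_nonneg hw.le]; exact hw2.2)
    simp only [Function.comp_apply]
    rw [← h9, lapC_ofReal, ← Complex.ofReal_mul]
    congr 1
    have i1 := hconv _ hw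
    have i2 := E.sc_LInt (S := S) (t := t) hw
    have e1 : lap (f0 S t r C0) w = lap (aa S t) w - lap (Pool.Agent.W263.EP.sc S t) w -
        r * lap Real.log w - C0 * lap (fun _ => (1 : ℝ)) w := by
      unfold f0
      rw [lap_sub ((i1.sub i2).sub ((log_LInt hw).const_mul _)) ((one_LInt hw).const_mul _),
        lap_sub (i1.sub i2) ((log_LInt hw).const_mul _), lap_sub i1 i2, lap_const_mul,
        lap_const_mul]
    have e2 : lap (Pool.Agent.W263.EP.ff S t r) w = lap (aa S t) w -
        lap (Pool.Agent.W263.EP.sc S t) w - r * lap ell w := by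
      unfold Pool.Agent.W263.EP.ff
      rw [lap_sub (i1.sub i2) ((ell_LInt hw).const_mul _), lap_sub i1 i2, lap_const_mul]
    have e3 := log_lap hw
    have e4 : w * lap (fun _ => (1 : ℝ)) w = 1 := by
      rw [one_lap hw, mul_one_div_cancel hw.ne']
    rw [e1, e2]
    linear_combination (r : ℝ) * e3 + C0 * e4
  refine ⟨dslope Q 0, ρ, f0_meas r C0, f0_LInt E hconv r C0, hρ0, ?_, ?_⟩
  · exact ((Complex.differentiableOn_dslope (Metric.ball_mem_nhds 0 hρ0)).mpr hQd).continuousOn
  · intro z hz hzρ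
    have hz0 : z ≠ 0 := by
      intro h0
      rw [h0] at hz
      simp at hz
    rw [dslope_of_ne _ hz0, slope_def_field, hQ0, sub_zero, sub_zero, ← hQe z hz hzρ,
      mul_div_cancel_left₀ _ hz0]

theorem Hyp.neg {f : ℝ → ℝ} {h : ℂ → ℂ} {ρ : ℝ} (H : Hyp f h ρ) :
    Hyp (fun u => -f u) (fun z => -h z) ρ where
  meas := H.meas.neg
  int := fun w hw => (H.int w hw).neg
  pos := H.pos
  cont := H.cont.neg
  eq := fun z hz hzρ => by
    rw [← H.eq z hz hzρ]
    unfold lapC
    rw [← integral_neg]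
    congr 1; funext u; push_cast; ring

end Pool.Agent.W524.LV
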