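import Pool.Agent.W263.EP.Slow
import Pool.Agent.W263.EP.Brk
import Pool.Agent.W136.FR.Local

/-! The Laplace transform of the corrected logarithm of an Euler product over a norm system near 0. -/

set_option autoImplicit false

namespace Pool.Agent.W524.LV

open MeasureTheory Filter Topology Set Classical
open Pool.Agent.W263.BSD hiding sc ff sc_meas ff_meas GG hh mm
open Pool.Agent.W263.EP
open Pool.Agent.H341R2 (NormSys)
open Pool.Agent.W136.FR (Hyp Upper local_log log_LInt log_lapC log_lap one_lapC lapC_sub'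
  lapC_const_mul' eq_of_real)

variable {S : NormSys} {t : S.X → ℕ → ℝ} {D : ℝ}

/-- the terms with at least third powers -/
noncomputable def g3 (S : NormSys) (t : S.X → ℕ → ℝ) (p : S.X × ℕ) (w : ℂ) : ℂ :=
  if p.2 = 1 then 0 else gt S t p w

/-- their sum -/
noncomputable def H3 (S : NormSys) (t : S.X → ℕ → ℝ) (w : ℂ) : ℂ := ∑' p : S.X × ℕ, g3 S t p w

theorem b3_le (x : S.X) : hh S x * (S.N x : ℝ) ^ (1 / 50 : ℝ) ≤ 3 / 4 := by
  unfold hh
  rw [← Real.rpow_add (S.N_pos x)]
  have h1 : (S.N x : ℝ) ^ (-(1 / 2) + 1 / 50 : ℝ) ≤ (2 : ℝ) ^ (-(1 / 2) + 1 / 50 : ℝ) :=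
    Real.rpow_le_rpow_of_nonpos (by norm_num) (N_real_two x) (by norm_num)
  refine h1.trans ?_
  have h2 : ((2 : ℝ) ^ (-(1 / 2) + 1 / 50 : ℝ)) ^ 25 ≤ (3 / 4 : ℝ) ^ 25 := by
    rw [← Real.rpow_natCast, ← Real.rpow_mul (by norm_num)]
    have e : (-(1 / 2) + 1 / 50 : ℝ) * ((25 : ℕ) : ℝ) = -(12 : ℝ) := by norm_num
    rw [e, Real.rpow_neg (by norm_num)]
    have e2 : (2 : ℝ) ^ (12 : ℝ) = 4096 := by
      rw [show (12 : ℝ) = ((12 : ℕ) : ℝ) by norm_num, Real.rpow_natCast]
      norm_num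
    rw [e2]
    norm_num
  exact le_of_pow_le_pow_left₀ (by norm_num) (by norm_num) h2

theorem b3_cube (x : S.X) : (hh S x * (S.N x : ℝ) ^ (1 / 50 : ℝ)) ^ 3 =
    (S.N x : ℝ) ^ (-(36 / 25) : ℝ) := by
  unfold hh
  rw [← Real.rpow_add (S.N_pos x), ← Real.rpow_natCast, ← Real.rpow_mul (S.N_pos x).le]
  norm_num

theorem g3_norm (E : TData S t D) (p : S.X × ℕ) {z : ℂ} (hz : -(1 / 50) < z.re) :
    ‖g3 S t p z‖ ≤ (2 * D) * ((S.N p.1 : ℝ) ^ (-(36 / 25) : ℝ) * (3 / 4 : ℝ) ^ (p.2 - 2)) := by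
  have hD := E.nonneg
  obtain ⟨x, m⟩ := p
  have hN := S.N_pos x
  match m with
  | 0 =>
    unfold g3
    rw [if_neg (by norm_num), TData.gt_zero, norm_zero]
    positivity
  | 1 =>
    unfold g3
    rw [if_pos rfl, norm_zero]
    positivity
  | (m + 2) =>
    unfold g3
    rw [if_neg (by simp)]
    unfold gt
    rw [norm_mul, norm_neg]
    simp only []
    set y : ℝ := (S.N x : ℝ) ^ (1 / 50 : ℝ) with hy
    have hy1 : 1 ≤ y := Real.one_le_rpow (by linarith [N_real_two x]) (by norm_num)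
    have h1 : ‖xx S x z‖ ≤ y := by
      have := norm_xx_le (S := S) x hz.le
      rwa [neg_neg] at this
    have h2 : ‖xx S x z - xx S x z ^ (m + 2 + 1)‖ ≤ 2 * y ^ (m + 2 + 1) := by
      refine (norm_sub_le _ _).trans ?_
      rw [norm_pow]
      have e1 : ‖xx S x z‖ ^ (m + 2 + 1) ≤ y ^ (m + 2 + 1) := pow_le_pow_left₀ (norm_nonneg _) h1 _
      have e2 : y ≤ y ^ (m + 2 + 1) := le_self_pow₀ hy1 (by omega)
      linarith
    have h3 := E.coeff_norm x (m + 2)
    have hhp := hh_pos (S := S) x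
    calc ‖(t x (m + 2 + 1) : ℂ) / (((m + 2 : ℕ) : ℂ) + 1)‖ * ‖xx S x z - xx S x z ^ (m + 2 + 1)‖
        ≤ (D * hh S x ^ (m + 2 + 1)) * (2 * y ^ (m + 2 + 1)) := by
          refine mul_le_mul ?_ h2 (norm_nonneg _) (by positivity)
          exact h3
      _ = (2 * D) * ((hh S x * y) ^ 3 * (hh S x * y) ^ m) := by ring
      _ ≤ (2 * D) * ((S.N x : ℝ) ^ (-(36 / 25) : ℝ) * (3 / 4 : ℝ) ^ (m + 2 - 2)) := by
          rw [hy, b3_cube]
          have e3 := b3_le (S := S) x
          have e4 : 0 ≤ hh S x * (S.N x : ℝ) ^ (1 / 50 : ℝ) := by positivity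
          have e5 : (hh S x * (S.N x : ℝ) ^ (1 / 50 : ℝ)) ^ m ≤ (3 / 4 : ℝ) ^ m :=
            pow_le_pow_left₀ e4 e3 _
          simp only [Nat.add_sub_cancel]
          gcongr

theorem g3_diff (p : S.X × ℕ) : Differentiable ℂ (g3 S t p) := by
  by_cases hp : p.2 = 1
  · have h : g3 S t p = fun _ => 0 := by funext w; unfold g3; rw [if_pos hp]
    rw [h]
    exact differentiable_const _
  · have h : g3 S t p = gt S t p := by funext w; unfold g3; rw [if_neg hp]
    rw [h]
    exact TData.gt_diff p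

theorem H3_diff (E : TData S t D) : DifferentiableOn ℂ (H3 S t) {z : ℂ | -(1 / 50) < z.re} :=
  Complex.differentiableOn_tsum_of_summable_norm
    (prod_summable S (show (-(36 / 25) : ℝ) < -1 by norm_num) (2 * D) 2)
    (fun p => (g3_diff p).differentiableOn) (isOpen_half _) (fun p _ hw => g3_norm E p hw)

/-- `GG - z lap sc = H3` -/
theorem GG_sub' (E : TData S t D) : ∀ z : ℂ, 0 < z.re →
    Pool.Agent.W263.EP.GG S t z - z * lapC (Pool.Agent.W263.EP.sc S t) z = H3 S t z := by
  refine eq_of_real (f := fun z => Pool.Agent.W263.EP.GG S t z - z * lapC (Pool.Agent.W263.EP.sc S t) z) ?_ ?_ ?_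
  · intro z hz
    have hz' : 0 < z.re := hz
    exact ((E.GG_diff hz').sub (differentiableAt_id.mul
      (lapC_differentiableAt Pool.Agent.W263.EP.sc_meas (fun w hw => E.sc_LInt hw) hz'))).differentiableWithinAt
  · refine (H3_diff E).mono fun z hz => ?_
    have hz' : 0 < z.re := hz
    show -(1 / 50) < z.re
    linarith
  · intro w hw
    have h1 := (E.gt_summable (w := w) (by simpa using hw)).hasSum
    have h2 := E.mm_hasSum hw
    have h3 : HasSum (fun p : S.X × ℕ => if p.2 = 1 then gt S t p w else 0)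
        ((w * lap (ss S t) w - (2 * w) * lap (ss S t) (2 * w) : ℝ) : ℂ) := by
      have hinj : Function.Injective (fun x : S.X => ((x, 1) : S.X × ℕ)) := fun x y h => by
        simpa using h
      rw [← hinj.hasSum_iff]
      · refine h2.congr_fun fun x => ?_
        simp only [Function.comp_apply, if_true]
        rw [gt_real]
        unfold mm
        norm_num
      · rintro ⟨x, m⟩ hp
        have : m ≠ 1 := fun h => hp ⟨x, by rw [h]⟩
        simp only []
        rw [if_neg this]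
    have h4 := h1.sub h3
    have h6 : (fun p : S.X × ℕ => gt S t p w - if p.2 = 1 then gt S t p w else 0) =
        fun p => g3 S t p w := by
      funext p
      unfold g3
      split_ifs <;> simp
    rw [h6] at h4
    have h7 : lap (Pool.Agent.W263.EP.sc S t) w = lap (ss S t) w - lap (fun u => ss S t (u / 2)) w := by
      unfold Pool.Agent.W263.EP.sc
      rw [lap_sub (E.ss_LInt hw) (LInt_half (E.ss_LInt (by linarith)))]
    have h8 := lap_half (f := ss S t) (w := w)
    unfold H3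
    rw [h4.tsum_eq, lapC_ofReal, h7, ← h8]
    unfold Pool.Agent.W263.EP.GG
    push_cast
    ring

end Pool.Agent.W524.LV
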