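import Pool.Agent.W524.LV.Win

/-! One-sided criteria on the windows `[x, l x]` for Euler products over norm systems. -/

set_option autoImplicit false

namespace Pool.Agent.W524.LV

open MeasureTheory Filter Topology Set Classical
open Pool.Agent.W263.BSD hiding sc ff sc_meas ff_meas GG hh mm aa
open Pool.Agent.W263.EP
open Pool.Agent.H341R2 (NormSys)

/-- `Q` has the exact order of magnitude `(log x) ^ m` -/
def EOrd (Q : ℝ → ℝ) (m : ℝ) : Prop :=
  ∃ c C : ℝ, 0 < c ∧ 0 < C ∧ ∀ᶠ x : ℝ in atTop,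
    c * Real.log x ^ m ≤ Q x ∧ Q x ≤ C * Real.log x ^ m

section Gen

variable {S : NormSys} {bad : Set S.X} {tr : S.X → ℕ → ℝ} {ω D : ℝ}

theorem PP_eq {x : ℝ} (hx : 0 < x) : PP S bad tr ω x = Real.exp (aa S (tn S bad tr ω) (Real.log x)) := by
  have h := log_PP (S := S) (bad := bad) (tr := tr) (ω := ω) (Real.log x)
  rw [Real.exp_log hx] at h
  rw [← h, Real.exp_log (PP_pos _)]

theorem WUp_of_incr {l K : ℝ} (hl : 1 < l)
    (h : ∃ u0 : ℝ, ∀ u v, u0 ≤ u → u ≤ v → v ≤ u + Real.log l →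
      aa S (tn S bad tr ω) v ≤ aa S (tn S bad tr ω) u + K) :
    WUp (PP S bad tr ω) l (Real.exp K) := by
  obtain ⟨u0, h⟩ := h
  filter_upwards [eventually_ge_atTop (Real.exp u0)] with x hx y h1 h2
  have hx0 : 0 < x := lt_of_lt_of_le (Real.exp_pos _) hx
  have hy0 : 0 < y := by linarith
  rw [PP_eq hx0, PP_eq hy0, ← Real.exp_add]
  refine Real.exp_le_exp.mpr ?_
  have h3 := h (Real.log x) (Real.log y) ((Real.le_log_iff_exp_le hx0).mpr hx)
    (Real.log_le_log hx0 h1) (by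
      have := Real.log_le_log hy0 h2
      rw [Real.log_mul (by linarith) hx0.ne'] at this
      linarith)
  linarith

theorem WLo_of_incr {l K : ℝ} (hl : 1 < l)
    (h : ∃ u0 : ℝ, ∀ u v, u0 ≤ u → u ≤ v → v ≤ u + Real.log l →
      -aa S (tn S bad tr ω) v ≤ -aa S (tn S bad tr ω) u + K) :
    WLo (PP S bad tr ω) l (Real.exp K) := by
  obtain ⟨u0, h⟩ := h
  filter_upwards [eventually_ge_atTop (Real.exp u0)] with x hx y h1 h2
  have hx0 : 0 < x := lt_of_lt_of_le (Real.exp_pos _) hx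
  have hy0 : 0 < y := by linarith
  rw [PP_eq hx0, PP_eq hy0, ← Real.exp_add]
  refine Real.exp_le_exp.mpr ?_
  have h3 := h (Real.log x) (Real.log y) ((Real.le_log_iff_exp_le hx0).mpr hx)
    (Real.log_le_log hx0 h1) (by
      have := Real.log_le_log hy0 h2
      rw [Real.log_mul (by linarith) hx0.ne'] at this
      linarith)
  linarith

/-- change of `m log u` over bounded distances -/
theorem mlog_short (m : ℝ) {b : ℝ} {ε : ℝ} (hε : 0 < ε) :
    ∃ u0 : ℝ, 1 ≤ u0 ∧ ∀ u v, u0 ≤ u → u ≤ v → v ≤ u + b →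
      |m * (Real.log v - Real.log u)| ≤ ε := by
  refine ⟨max 1 (|m| * b / ε), le_max_left _ _, fun u v e1 e2 e3 => ?_⟩
  have hu1 : 1 ≤ u := (le_max_left _ _).trans e1
  have hu0 : 0 < u := by linarith
  have h1 : Real.log u ≤ Real.log v := Real.log_le_log hu0 e2
  have h2 : Real.log v - Real.log u ≤ b / u := by
    rw [← Real.log_div (by linarith) hu0.ne']
    refine (Real.log_le_sub_one_of_pos (div_pos (by linarith) hu0)).trans ?_
    rw [div_sub_one hu0.ne']
    exact div_le_div_of_nonneg_right (by linarith) hu0.le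
  rw [abs_mul, abs_of_nonneg (show 0 ≤ Real.log v - Real.log u by linarith)]
  refine (mul_le_mul_of_nonneg_left h2 (abs_nonneg m)).trans ?_
  have h3 : |m| * b / ε ≤ u := (le_max_right _ _).trans e1
  rw [div_le_iff₀ hε] at h3
  rw [mul_div_assoc', div_le_iff₀ hu0]
  linarith

/-- boundedness of the deviation gives bounded increments -/
theorem incr_of_bdd {m M : ℝ} (h : ∀ᶠ u : ℝ in atTop, |aa S (tn S bad tr ω) u - m * Real.log u| ≤ M)
    (b : ℝ) : ∃ u0 : ℝ, ∀ u v, u0 ≤ u → u ≤ v → v ≤ u + b →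
      |aa S (tn S bad tr ω) v - aa S (tn S bad tr ω) u| ≤ 2 * M + 1 := by
  obtain ⟨U, hU⟩ := eventually_atTop.mp h
  obtain ⟨u1, _, h1⟩ := mlog_short m (b := b) one_pos
  refine ⟨max U u1, fun u v e1 e2 e3 => ?_⟩
  have a1 := abs_le.mp (hU u ((le_max_left _ _).trans e1))
  have a2 := abs_le.mp (hU v (((le_max_left _ _).trans e1).trans e2))
  have a3 := abs_le.mp (h1 u v ((le_max_right _ _).trans e1) e2 e3)
  rw [abs_le]
  constructor <;> linarith [a1.1, a1.2, a2.1, a2.2, a3.1, a3.2]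

/-- convergence of the corrected product gives small increments -/
theorem incr_of_lim (E : TData S (tn S bad tr ω) D) (hS : SlowSys S) {m κ : ℝ}
    (h : Tendsto (fun u : ℝ => aa S (tn S bad tr ω) u -
      Pool.Agent.W263.EP.sc S (tn S bad tr ω) u - m * Real.log u) atTop (𝓝 κ)) (b : ℝ) {ε : ℝ}
    (hε : 0 < ε) : ∃ u0 : ℝ, ∀ u v, u0 ≤ u → u ≤ v → v ≤ u + b →
      |aa S (tn S bad tr ω) v - aa S (tn S bad tr ω) u| ≤ ε := by
  obtain ⟨U, hU⟩ := Metric.tendsto_atTop.mp h (ε / 4) (by positivity)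
  obtain ⟨u1, _, h1⟩ := mlog_short m (b := b) (show 0 < ε / 4 by positivity)
  obtain ⟨u2, h2⟩ := sc_short E hS (b := b) (show 0 < ε / 4 by positivity)
  refine ⟨max U (max u1 u2), fun u v e1 e2 e3 => ?_⟩
  have a1 := hU u ((le_max_left _ _).trans e1)
  have a2 := hU v (((le_max_left _ _).trans e1).trans e2)
  have a3 := abs_le.mp (h1 u v (((le_max_left _ _).trans (le_max_right _ _)).trans e1) e2 e3)
  have a4 := abs_le.mp (h2 u v (((le_max_right _ _).trans (le_max_right _ _)).trans e1) e2 e3)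
  rw [Real.dist_eq] at a1 a2
  have b1 := abs_lt.mp a1
  have b2 := abs_lt.mp a2
  rw [abs_le]
  constructor <;> linarith [a3.1, a3.2, a4.1, a4.2, b1.1, b1.2, b2.1, b2.2]

theorem EOrd_of_bdd {m M : ℝ}
    (h : ∀ᶠ u : ℝ in atTop, |aa S (tn S bad tr ω) u - m * Real.log u| ≤ M) :
    EOrd (PP S bad tr ω) m := by
  refine ⟨Real.exp (-M), Real.exp M, Real.exp_pos _, Real.exp_pos _, ?_⟩
  filter_upwards [Real.tendsto_log_atTop.eventually h, eventually_gt_atTop (1 : ℝ)] with x h1 h2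
  have hl : 0 < Real.log x := Real.log_pos h2
  have h3 := abs_le.mp h1
  rw [PP_eq (by linarith), Real.rpow_def_of_pos hl, ← Real.exp_add, ← Real.exp_add]
  exact ⟨Real.exp_le_exp.mpr (by linarith [h3.1]), Real.exp_le_exp.mpr (by linarith [h3.2])⟩

theorem bdd_of_EOrd {m : ℝ} (h : EOrd (PP S bad tr ω) m) : ∃ M : ℝ,
    ∀ᶠ u : ℝ in atTop, |aa S (tn S bad tr ω) u - m * Real.log u| ≤ M := by
  obtain ⟨c, C, hc, hC, h⟩ := h
  refine ⟨|Real.log c| + |Real.log C|, ?_⟩
  filter_upwards [Real.tendsto_exp_atTop.eventually h, eventually_gt_atTop (0 : ℝ)] with u h1 h2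
  rw [PP_eq (Real.exp_pos u), Real.log_exp, Real.rpow_def_of_pos h2] at h1
  have h3 := Real.log_le_log (by positivity) h1.1
  have h4 := Real.log_le_log (by positivity) h1.2
  rw [Real.log_mul hc.ne' (Real.exp_pos _).ne', Real.log_exp, Real.log_exp] at h3
  rw [Real.log_mul hC.ne' (Real.exp_pos _).ne', Real.log_exp, Real.log_exp] at h4
  have h5 := neg_abs_le (Real.log c)
  have h6 := le_abs_self (Real.log C)
  have h7 := abs_nonneg (Real.log c)
  have h8 := abs_nonneg (Real.log C)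
  rw [abs_le]
  constructor <;> linarith

theorem exponent_unique {m m' M M' : ℝ}
    (h : ∀ᶠ u : ℝ in atTop, |aa S (tn S bad tr ω) u - m * Real.log u| ≤ M)
    (h' : ∀ᶠ u : ℝ in atTop, |aa S (tn S bad tr ω) u - m' * Real.log u| ≤ M') : m = m' := by
  by_contra hne
  have hpos : 0 < |m - m'| := abs_pos.mpr (sub_ne_zero.mpr hne)
  have h1 : ∀ᶠ u : ℝ in atTop, (M + M' + 1) / |m - m'| ≤ Real.log u :=
    Real.tendsto_log_atTop.eventually_ge_atTop _
  obtain ⟨u, h2, h3, h4, h5⟩ := (h.and (h'.and (h1.and (eventually_ge_atTop 1)))).exists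
  rw [div_le_iff₀ hpos] at h4
  have h6 : 0 ≤ Real.log u := Real.log_nonneg h5
  have h7 : |m - m'| * Real.log u ≤ M + M' := by
    rw [← abs_of_nonneg h6, ← abs_mul]
    have : (m - m') * Real.log u = (aa S (tn S bad tr ω) u - m' * Real.log u) -
        (aa S (tn S bad tr ω) u - m * Real.log u) := by ring
    rw [this]
    refine (abs_sub _ _).trans ?_
    linarith
  linarith

/-- the Laplace integral converges if the deviation is bounded -/
theorem conv_of_bdd {Φ : ℂ → ℂ} {c0 m M : ℝ} (P : DataU 1 (aa S (tn S bad tr ω)) Φ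
    (Pool.Agent.W263.EP.GG S (tn S bad tr ω)) c0)
    (h : ∀ᶠ u : ℝ in atTop, |aa S (tn S bad tr ω) u - m * Real.log u| ≤ M) :
    ∀ w > 0, LInt (aa S (tn S bad tr ω)) w := by
  obtain ⟨u0, h1⟩ := incr_of_bdd h 1
  exact conv_of_incr P (K := 2 * M + 1) one_pos ⟨u0, fun u v e1 e2 e3 => by
    have := (abs_le.mp (h1 u v e1 e2 e3)).2
    linarith⟩

/-- real zeros are excluded by convergence -/
theorem ne_of_conv (E : TData S (tn S bad tr ω) D) {F : ℂ → ℂ} (hF : IsCont S bad tr ω F)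
    (hconv : ∀ w > 0, LInt (aa S (tn S bad tr ω)) w) (s : ℝ) (hs : (ω + 1) / 2 < s) : F s ≠ 0 := by
  rw [hF.eq_FC E hconv hs]
  exact FC_ne_zero _

end Gen

end Pool.Agent.W524.LV
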