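import Pool.Agent.W524.LV.Loc
import Pool.Agent.W524.DY.Tb

/-! One-sided conditions on the windows `[x, l x]`. -/

set_option autoImplicit false

namespace Pool.Agent.W524.LV

open MeasureTheory Filter Topology Set Classical
open Pool.Agent.W263.BSD hiding sc ff sc_meas ff_meas GG hh mm
open Pool.Agent.W263.EP
open Pool.Agent.H341R2 (NormSys)
open Pool.Agent.W136.FR (Hyp Upper local_log log_LInt log_lapC log_lap one_lapC lapC_sub'
  lapC_const_mul' eq_of_real Slow fatou_riesz chain')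
open Pool.Agent.W524.DY (bounded_of_incr)

/-- the one-sided condition from above with the constant `C` -/
def WUp (Q : ℝ → ℝ) (l C : ℝ) : Prop :=
  ∀ᶠ x : ℝ in atTop, ∀ y, x ≤ y → y ≤ l * x → Q y ≤ C * Q x

/-- the one-sided condition from below with the constant `C` -/
def WLo (Q : ℝ → ℝ) (l C : ℝ) : Prop :=
  ∀ᶠ x : ℝ in atTop, ∀ y, x ≤ y → y ≤ l * x → Q x ≤ C * Q y

theorem lin_exp (K : ℝ) {ε : ℝ} (hε : 0 < ε) : ∀ᶠ u : ℝ in atTop, K * (1 + u) ≤ Real.exp (ε * u) := by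
  filter_upwards [eventually_ge_atTop (1 : ℝ), eventually_ge_atTop (4 * |K| / ε ^ 2)] with u h1 h2
  have h3 := Real.quadratic_le_exp_of_nonneg (show 0 ≤ ε * u by positivity)
  rw [div_le_iff₀ (by positivity)] at h2
  have h4 : K * (1 + u) ≤ |K| * (2 * u) :=
    (mul_le_mul_of_nonneg_right (le_abs_self K) (by linarith)).trans
      (mul_le_mul_of_nonneg_left (by linarith) (abs_nonneg K))
  have h5 : |K| * (2 * u) ≤ (ε * u) ^ 2 / 2 := by nlinarith
  have h6 : 0 ≤ ε * u := by positivity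
  linarith

/-- increments bounded from above over bounded distances give linear growth -/
theorem lin_of_incr {f : ℝ → ℝ} {b K u0 : ℝ} (hb : 0 < b) (hK : 0 ≤ K)
    (h : ∀ u v, u0 ≤ u → u ≤ v → v ≤ u + b → f v ≤ f u + K) {ε : ℝ} (hε : 0 < ε) :
    ∀ᶠ u : ℝ in atTop, f u ≤ Real.exp (ε * u) := by
  set u1 := max u0 0 with hu1
  filter_upwards [lin_exp (|f u1| + K + K / b) hε, eventually_ge_atTop u1] with u h1 h2
  refine le_trans ?_ h1
  have h3 := chain' hb hK h (le_max_left u0 0) h2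
  have h4 : 0 ≤ u1 := le_max_right _ _
  have h5 : (u - u1) / b ≤ u / b := div_le_div_of_nonneg_right (by linarith) hb.le
  have h6 := le_abs_self (f u1)
  have h7 : (1 + (u - u1) / b) * K ≤ (1 + u / b) * K := mul_le_mul_of_nonneg_right (by linarith) hK
  have h8 : (1 + u / b) * K = K + K / b * u := by ring
  have hu0 : 0 ≤ u := by linarith
  have h9 : 0 ≤ |f u1| * u := by positivity
  have h10 : 0 ≤ K / b := by positivity
  have h11 : 0 ≤ K * u := by positivity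
  nlinarith

section Gen

variable {S : NormSys} {bad : Set S.X} {tr : S.X → ℕ → ℝ} {ω D : ℝ}

theorem incr_of_WUp {l C : ℝ} (hl : 1 < l) (hC : 0 < C) (h : WUp (PP S bad tr ω) l C) :
    ∃ u0 : ℝ, ∀ u v, u0 ≤ u → u ≤ v → v ≤ u + Real.log l →
      aa S (tn S bad tr ω) v ≤ aa S (tn S bad tr ω) u + Real.log C := by
  obtain ⟨X, hX⟩ := eventually_atTop.mp h
  refine ⟨Real.log (max X 1), fun u v h2 h3 h4 => ?_⟩
  have h5 : X ≤ Real.exp u := by
    have e2 : 0 < max X 1 := lt_of_lt_of_le one_pos (le_max_right _ _)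
    rw [Real.log_le_iff_le_exp e2] at h2
    exact (le_max_left _ _).trans h2
  have h6 := hX (Real.exp u) h5 (Real.exp v) (Real.exp_le_exp.mpr h3) (by
    rw [← Real.exp_log (show 0 < l by linarith), ← Real.exp_add]
    exact Real.exp_le_exp.mpr (by linarith))
  have h7 := Real.log_le_log (PP_pos _) h6
  rw [Real.log_mul hC.ne' (PP_pos _).ne', log_PP, log_PP] at h7
  linarith

theorem incr_of_WLo {l C : ℝ} (hl : 1 < l) (hC : 0 < C) (h : WLo (PP S bad tr ω) l C) :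
    ∃ u0 : ℝ, ∀ u v, u0 ≤ u → u ≤ v → v ≤ u + Real.log l →
      -aa S (tn S bad tr ω) v ≤ -aa S (tn S bad tr ω) u + Real.log C := by
  obtain ⟨X, hX⟩ := eventually_atTop.mp h
  refine ⟨Real.log (max X 1), fun u v h2 h3 h4 => ?_⟩
  have h5 : X ≤ Real.exp u := by
    have e2 : 0 < max X 1 := lt_of_lt_of_le one_pos (le_max_right _ _)
    rw [Real.log_le_iff_le_exp e2] at h2
    exact (le_max_left _ _).trans h2
  have h6 := hX (Real.exp u) h5 (Real.exp v) (Real.exp_le_exp.mpr h3) (by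
    rw [← Real.exp_log (show 0 < l by linarith), ← Real.exp_add]
    exact Real.exp_le_exp.mpr (by linarith))
  have h7 := Real.log_le_log (PP_pos _) h6
  rw [Real.log_mul hC.ne' (PP_pos _).ne', log_PP, log_PP] at h7
  linarith

theorem small_rel {δ b : ℝ} (hδ : 0 < δ) : ∀ᶠ u : ℝ in atTop, ∀ v, v ≤ u + b →
    v ≤ (1 + δ) * u := by
  filter_upwards [eventually_ge_atTop (b / δ)] with u hu v hv
  rw [div_le_iff₀ hδ] at hu
  linarith

/-- the corrections change slowly -/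
theorem sc_short (E : TData S (tn S bad tr ω) D) (hS : SlowSys S) {b : ℝ} {ε : ℝ}
    (hε : 0 < ε) : ∃ u0 : ℝ, ∀ u v, u0 ≤ u → u ≤ v → v ≤ u + b →
      |Pool.Agent.W263.EP.sc S (tn S bad tr ω) v - Pool.Agent.W263.EP.sc S (tn S bad tr ω) u| ≤ ε := by
  obtain ⟨δ, hδ, u0, h⟩ := E.sc_slow hS hε
  obtain ⟨u1, h1⟩ := eventually_atTop.mp (small_rel (b := b) hδ)
  exact ⟨max u0 u1, fun u v e1 e2 e3 => h u v ((le_max_left _ _).trans e1) e2
    (h1 u ((le_max_right _ _).trans e1) v e3)⟩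

theorem log_short (r : ℕ) {b : ℝ} {ε : ℝ} (hε : 0 < ε) :
    ∃ u0 : ℝ, 1 ≤ u0 ∧ ∀ u v, u0 ≤ u → u ≤ v → v ≤ u + b →
      0 ≤ (r : ℝ) * (Real.log v - Real.log u) ∧ (r : ℝ) * (Real.log v - Real.log u) ≤ ε := by
  refine ⟨max 1 (r * b / ε), le_max_left _ _, fun u v e1 e2 e3 => ?_⟩
  have hu1 : 1 ≤ u := (le_max_left _ _).trans e1
  have hu0 : 0 < u := by linarith
  have h1 : Real.log u ≤ Real.log v := Real.log_le_log hu0 e2
  have h2 : Real.log v - Real.log u ≤ b / u := by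
    rw [← Real.log_div (by linarith) hu0.ne']
    refine (Real.log_le_sub_one_of_pos (div_pos (by linarith) hu0)).trans ?_
    rw [div_sub_one hu0.ne']
    exact div_le_div_of_nonneg_right (by linarith) hu0.le
  have hr : (0 : ℝ) ≤ r := by positivity
  refine ⟨mul_nonneg hr (by linarith), (mul_le_mul_of_nonneg_left h2 hr).trans ?_⟩
  have h3 : r * b / ε ≤ u := (le_max_right _ _).trans e1
  rw [div_le_iff₀ hε] at h3
  rw [mul_div_assoc', div_le_iff₀ hu0]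
  linarith

/-- increments of `f0` from above -/
theorem f0_incr (E : TData S (tn S bad tr ω) D) (hS : SlowSys S) {b K : ℝ} (r : ℕ)
    (C0 : ℝ) (h : ∃ u0 : ℝ, ∀ u v, u0 ≤ u → u ≤ v → v ≤ u + b →
      aa S (tn S bad tr ω) v ≤ aa S (tn S bad tr ω) u + K) {ε : ℝ} (hε : 0 < ε) :
    ∃ u0 : ℝ, ∀ u v, u0 ≤ u → u ≤ v → v ≤ u + b →
      f0 S (tn S bad tr ω) r C0 v ≤ f0 S (tn S bad tr ω) r C0 u + (K + ε) := by
  obtain ⟨u1, h1⟩ := h
  obtain ⟨u2, h2⟩ := sc_short E hS (b := b) hε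
  obtain ⟨u3, _, h3⟩ := log_short r (b := b) hε
  refine ⟨max u1 (max u2 u3), fun u v e1 e2 e3 => ?_⟩
  have a1 := h1 u v ((le_max_left _ _).trans e1) e2 e3
  have a2 := (abs_le.mp (h2 u v (((le_max_left _ _).trans (le_max_right _ _)).trans e1) e2 e3)).1
  have a3 := (h3 u v (((le_max_right _ _).trans (le_max_right _ _)).trans e1) e2 e3).1
  unfold f0
  linarith

/-- increments of `-f0` from above -/
theorem f0_decr (E : TData S (tn S bad tr ω) D) (hS : SlowSys S) {b K : ℝ} (r : ℕ)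
    (C0 : ℝ) (h : ∃ u0 : ℝ, ∀ u v, u0 ≤ u → u ≤ v → v ≤ u + b →
      -aa S (tn S bad tr ω) v ≤ -aa S (tn S bad tr ω) u + K) {ε : ℝ} (hε : 0 < ε) :
    ∃ u0 : ℝ, ∀ u v, u0 ≤ u → u ≤ v → v ≤ u + b →
      -f0 S (tn S bad tr ω) r C0 v ≤ -f0 S (tn S bad tr ω) r C0 u + (K + ε) := by
  obtain ⟨u1, h1⟩ := h
  obtain ⟨u2, h2⟩ := sc_short E hS (b := b) (half_pos hε)
  obtain ⟨u3, _, h3⟩ := log_short r (b := b) (half_pos hε)
  refine ⟨max u1 (max u2 u3), fun u v e1 e2 e3 => ?_⟩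
  have a1 := h1 u v ((le_max_left _ _).trans e1) e2 e3
  have a2 := (abs_le.mp (h2 u v (((le_max_left _ _).trans (le_max_right _ _)).trans e1) e2 e3)).2
  have a3 := (h3 u v (((le_max_right _ _).trans (le_max_right _ _)).trans e1) e2 e3).2
  unfold f0
  linarith

variable {Φ : ℂ → ℂ} {c0 c : ℝ} {r : ℕ}

theorem conv_of_incr (P : DataU 1 (aa S (tn S bad tr ω)) Φ
    (Pool.Agent.W263.EP.GG S (tn S bad tr ω)) c0) {b K : ℝ} (hb : 0 < b)
    (h : ∃ u0 : ℝ, ∀ u v, u0 ≤ u → u ≤ v → v ≤ u + b →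
      aa S (tn S bad tr ω) v ≤ aa S (tn S bad tr ω) u + K) :
    ∀ w > 0, LInt (aa S (tn S bad tr ω)) w := by
  obtain ⟨u0, h⟩ := h
  refine P.conv_of_upper fun ε hε => ?_
  refine lin_of_incr (K := max K 0) (u0 := u0) hb (le_max_right _ _) (fun u v e1 e2 e3 => ?_) hε
  have := h u v e1 e2 e3
  have := le_max_left K 0
  linarith

theorem conv_of_decr (P : DataU 1 (aa S (tn S bad tr ω)) Φ
    (Pool.Agent.W263.EP.GG S (tn S bad tr ω)) c0) (hne : ∀ w : ℝ, 0 < w → Φ w ≠ 0)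
    {b K : ℝ} (hb : 0 < b)
    (h : ∃ u0 : ℝ, ∀ u v, u0 ≤ u → u ≤ v → v ≤ u + b →
      -aa S (tn S bad tr ω) v ≤ -aa S (tn S bad tr ω) u + K) :
    ∀ w > 0, LInt (aa S (tn S bad tr ω)) w := by
  obtain ⟨u0, h⟩ := h
  refine P.conv_of_lower hne fun ε hε => ?_
  have h1 := lin_of_incr (f := fun u => -aa S (tn S bad tr ω) u) (K := max K 0) (u0 := u0) hb
    (le_max_right _ _) (fun u v e1 e2 e3 => by
      have := h u v e1 e2 e3
      have := le_max_left K 0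
      linarith) hε
  filter_upwards [h1] with u hu
  linarith

/-- a bound for the deviation -/
theorem bdd_of_f0 (E : TData S (tn S bad tr ω) D) {C0 : ℝ}
    (h : ∃ M : ℝ, 0 ≤ M ∧ ∀ᶠ u in atTop, |f0 S (tn S bad tr ω) r C0 u| ≤ M) :
    ∃ M : ℝ, ∀ᶠ u : ℝ in atTop, |aa S (tn S bad tr ω) u - r * Real.log u| ≤ M := by
  obtain ⟨M, _, hM⟩ := h
  obtain ⟨M', hM'⟩ := E.sc_bounded
  refine ⟨M + M' + |C0|, ?_⟩
  filter_upwards [hM, eventually_gt_atTop 0] with u h1 h2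
  have h3 := hM' u h2
  have h4 : aa S (tn S bad tr ω) u - r * Real.log u = f0 S (tn S bad tr ω) r C0 u +
      Pool.Agent.W263.EP.sc S (tn S bad tr ω) u + C0 := by
    unfold f0; ring
  rw [h4]
  refine (abs_add_le _ _).trans (add_le_add ((abs_add_le _ _).trans (add_le_add h1 h3)) le_rfl)

/-- **bounded windows give the exact order** -/
theorem order_up (E : TData S (tn S bad tr ω) D) (hS : SlowSys S)
    (P : DataU 1 (aa S (tn S bad tr ω)) Φ (Pool.Agent.W263.EP.GG S (tn S bad tr ω)) c0)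
    (hr : OrdZero Φ r) (hc0 : 0 < c)
    (hc : Tendsto (fun w : ℝ => ‖Φ w‖ / w ^ r) (𝓝[>] 0) (𝓝 c)) {b K : ℝ} (hb : 0 < b)
    (h : ∃ u0 : ℝ, ∀ u v, u0 ≤ u → u ≤ v → v ≤ u + b →
      aa S (tn S bad tr ω) v ≤ aa S (tn S bad tr ω) u + K) :
    ∃ M : ℝ, ∀ᶠ u : ℝ in atTop, |aa S (tn S bad tr ω) u - r * Real.log u| ≤ M := by
  have hconv := conv_of_incr P hb h
  obtain ⟨h0, ρ, H⟩ := local_hyp E P hr hc0 hc hconv
  obtain ⟨u0, h1⟩ := f0_incr E hS r (-Real.log c + r * Real.eulerMascheroniConstant) h one_pos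
  refine bdd_of_f0 E (bounded_of_incr H hb (K := max (K + 1) 0) (le_max_right _ _) (u1 := u0)
    fun u v e1 e2 e3 => ?_)
  have := h1 u v e1 e2 e3
  have := le_max_left (K + 1) 0
  linarith

theorem order_lo (E : TData S (tn S bad tr ω) D) (hS : SlowSys S)
    (P : DataU 1 (aa S (tn S bad tr ω)) Φ (Pool.Agent.W263.EP.GG S (tn S bad tr ω)) c0)
    (hr : OrdZero Φ r) (hc0 : 0 < c)
    (hc : Tendsto (fun w : ℝ => ‖Φ w‖ / w ^ r) (𝓝[>] 0) (𝓝 c))
    (hne : ∀ w : ℝ, 0 < w → Φ w ≠ 0) {b K : ℝ} (hb : 0 < b)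
    (h : ∃ u0 : ℝ, ∀ u v, u0 ≤ u → u ≤ v → v ≤ u + b →
      -aa S (tn S bad tr ω) v ≤ -aa S (tn S bad tr ω) u + K) :
    ∃ M : ℝ, ∀ᶠ u : ℝ in atTop, |aa S (tn S bad tr ω) u - r * Real.log u| ≤ M := by
  have hconv := conv_of_decr P hne hb h
  obtain ⟨h0, ρ, H⟩ := local_hyp E P hr hc0 hc hconv
  obtain ⟨u0, h1⟩ := f0_decr E hS r (-Real.log c + r * Real.eulerMascheroniConstant) h one_pos
  obtain ⟨M, hM0, hM⟩ := bounded_of_incr (Hyp.neg H) hb (K := max (K + 1) 0) (le_max_right _ _)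
    (u1 := u0) fun u v e1 e2 e3 => by
      have := h1 u v e1 e2 e3
      have := le_max_left (K + 1) 0
      linarith
  exact bdd_of_f0 E ⟨M, hM0, hM.mono fun u hu => by rwa [abs_neg] at hu⟩

theorem ff_of_f0 {C0 : ℝ} (h : Tendsto (f0 S (tn S bad tr ω) r C0) atTop (𝓝 0)) :
    Tendsto (Pool.Agent.W263.EP.ff S (tn S bad tr ω) r) atTop (𝓝 C0) := by
  have h1 := (h.add_const C0).sub (ell_sub_log.const_mul (r : ℝ))
  rw [zero_add, mul_zero, sub_zero] at h1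
  refine h1.congr fun u => ?_
  unfold f0 Pool.Agent.W263.EP.ff
  ring

/-- **slowly varying windows give the limit** -/
theorem limit_up (E : TData S (tn S bad tr ω) D) (hS : SlowSys S)
    (P : DataU 1 (aa S (tn S bad tr ω)) Φ (Pool.Agent.W263.EP.GG S (tn S bad tr ω)) c0)
    (hr : OrdZero Φ r) (hc0 : 0 < c)
    (hc : Tendsto (fun w : ℝ => ‖Φ w‖ / w ^ r) (𝓝[>] 0) (𝓝 c)) {b : ℝ} (hb : 0 < b)
    (h : ∀ ε > 0, ∃ u0 : ℝ, ∀ u v, u0 ≤ u → u ≤ v → v ≤ u + b →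
      aa S (tn S bad tr ω) v ≤ aa S (tn S bad tr ω) u + ε) :
    Tendsto (Pool.Agent.W263.EP.ff S (tn S bad tr ω) r) atTop
      (𝓝 (-Real.log c + r * Real.eulerMascheroniConstant)) := by
  have hconv := conv_of_incr P hb (h 1 one_pos)
  obtain ⟨h0, ρ, H⟩ := local_hyp E P hr hc0 hc hconv
  refine ff_of_f0 (fatou_riesz H hb fun ε hε => ?_)
  obtain ⟨u0, h1⟩ := f0_incr E hS r (-Real.log c + r * Real.eulerMascheroniConstant)
    (h (ε / 2) (half_pos hε)) (half_pos hε)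
  exact ⟨u0, fun u v e1 e2 e3 => by have := h1 u v e1 e2 e3; linarith⟩

theorem limit_lo (E : TData S (tn S bad tr ω) D) (hS : SlowSys S)
    (P : DataU 1 (aa S (tn S bad tr ω)) Φ (Pool.Agent.W263.EP.GG S (tn S bad tr ω)) c0)
    (hr : OrdZero Φ r) (hc0 : 0 < c)
    (hc : Tendsto (fun w : ℝ => ‖Φ w‖ / w ^ r) (𝓝[>] 0) (𝓝 c))
    (hne : ∀ w : ℝ, 0 < w → Φ w ≠ 0) {b : ℝ} (hb : 0 < b)
    (h : ∀ ε > 0, ∃ u0 : ℝ, ∀ u v, u0 ≤ u → u ≤ v → v ≤ u + b →
      -aa S (tn S bad tr ω) v ≤ -aa S (tn S bad tr ω) u + ε) :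
    Tendsto (Pool.Agent.W263.EP.ff S (tn S bad tr ω) r) atTop
      (𝓝 (-Real.log c + r * Real.eulerMascheroniConstant)) := by
  have hconv := conv_of_decr P hne hb (h 1 one_pos)
  obtain ⟨h0, ρ, H⟩ := local_hyp E P hr hc0 hc hconv
  have h2 : Tendsto (fun u => -f0 S (tn S bad tr ω) r
      (-Real.log c + r * Real.eulerMascheroniConstant) u) atTop (𝓝 0) := by
    refine fatou_riesz (Hyp.neg H) hb fun ε hε => ?_
    obtain ⟨u0, h1⟩ := f0_decr E hS r (-Real.log c + r * Real.eulerMascheroniConstant)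
      (h (ε / 2) (half_pos hε)) (half_pos hε)
    exact ⟨u0, fun u v e1 e2 e3 => by have := h1 u v e1 e2 e3; linarith⟩
  have h3 := h2.neg
  simp only [neg_neg, neg_zero] at h3
  exact ff_of_f0 h3

end Gen

end Pool.Agent.W524.LV
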